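import Mathlib

-- merged part: Pool.Agent.Work.MP_689d9c_gt.S.LL
section
-- merged part: Pool.Agent.Work.MP_689d9c_gt.Basic
section
set_option autoImplicit false
set_option linter.unusedSectionVars false

namespace Pool.Agent.Work.MP_689d9c_gt

open Real

/-- The underlying set of the Heisenberg group. -/
abbrev Hs := ℝ × ℝ × ℝ

/-- Vertical component of `p⁻¹ q`. -/
def om (p q : Hs) : ℝ := q.2.2 - p.2.2 - 2 * (p.1 * q.2.1 - p.2.1 * q.1)

/-- A left-invariant gauge. -/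
def gN (p q : Hs) : ℝ := |q.1 - p.1| + |q.2.1 - p.2.1| + |om p q|

/-- Vertical translation. -/
def vt (p : Hs) (τ : ℝ) : Hs := (p.1, p.2.1, p.2.2 + τ)

/-- Dilation. -/
def dil (r : ℝ) (p : Hs) : Hs := (r * p.1, r * p.2.1, r ^ 2 * p.2.2)

lemma gN_nonneg (p q : Hs) : 0 ≤ gN p q := by unfold gN; positivity

lemma om_vt (p : Hs) (τ : ℝ) : om p (vt p τ) = τ := by simp only [om, vt]; ring

lemma om_vt_vt (p q : Hs) (τ : ℝ) : om (vt p τ) (vt q τ) = om p q := by simp only [om, vt]; ring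

lemma om_vt_om (p q : Hs) : om (vt p (om p q)) q = 0 := by simp only [om, vt]; ring

lemma gN_vt (p : Hs) (τ : ℝ) : gN p (vt p τ) = |τ| := by
  simp only [gN, om_vt]; simp [vt]

lemma gN_vt_vt (p q : Hs) (τ : ℝ) : gN (vt p τ) (vt q τ) = gN p q := by
  simp only [gN, om_vt_vt]; simp [vt]

lemma vt_vt (p : Hs) (a b : ℝ) : vt (vt p a) b = vt p (a + b) := by simp [vt, add_assoc]

lemma vt_zero (p : Hs) : vt p 0 = p := by simp [vt]

lemma dil_vt (r : ℝ) (p : Hs) (τ : ℝ) : dil r (vt p τ) = vt (dil r p) (r ^ 2 * τ) := by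
  simp [dil, vt, mul_add]

lemma om_dil (r : ℝ) (p q : Hs) : om (dil r p) (dil r q) = r ^ 2 * om p q := by
  simp only [om, dil]; ring

lemma gN_dil {r : ℝ} (hr : 0 ≤ r) (p q : Hs) :
    gN (dil r p) (dil r q) = r * |q.1 - p.1| + r * |q.2.1 - p.2.1| + r ^ 2 * |om p q| := by
  rw [gN, om_dil, abs_mul, abs_of_nonneg (sq_nonneg r)]
  simp only [dil, ← mul_sub, abs_mul, abs_of_nonneg hr]

lemma sum_geom_low {r A : ℝ} (hr0 : 0 ≤ r) (hr1 : r < 1) (hA : 0 ≤ A) (a : ℕ → ℝ) (j : ℕ)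
    (h : ∀ k < j, a k ≤ A * r ^ (j - k)) : ∑ k ∈ Finset.range j, a k ≤ A * (r / (1 - r)) := by
  have h1 : ∀ j : ℕ, ∑ k ∈ Finset.range j, r ^ (j - k) ≤ r / (1 - r) := by
    intro j
    have hpos : 0 < 1 - r := by linarith
    induction j with
    | zero => simp only [Finset.range_zero, Finset.sum_empty]; positivity
    | succ j ih =>
      rw [Finset.sum_range_succ, Nat.add_sub_cancel_left, pow_one]
      have : ∑ k ∈ Finset.range j, r ^ (j + 1 - k) = r * ∑ k ∈ Finset.range j, r ^ (j - k) := by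
        rw [Finset.mul_sum]
        refine Finset.sum_congr rfl fun k hk => ?_
        rw [Finset.mem_range] at hk
        rw [show j + 1 - k = (j - k) + 1 by omega, pow_succ']
      rw [this]
      calc _ ≤ r * (r / (1 - r)) + r := by gcongr
        _ = r / (1 - r) := by field_simp; ring
  calc _ ≤ ∑ k ∈ Finset.range j, A * r ^ (j - k) :=
        Finset.sum_le_sum fun k hk => h k (Finset.mem_range.1 hk)
    _ = A * ∑ k ∈ Finset.range j, r ^ (j - k) := by rw [Finset.mul_sum]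
    _ ≤ _ := mul_le_mul_of_nonneg_left (h1 j) hA

lemma sum_geom_high {r A : ℝ} (hr0 : 0 ≤ r) (hr1 : r ≤ 1 / 2) (hA : 0 ≤ A) (a : ℕ → ℝ) (j n : ℕ)
    (h : ∀ k, j ≤ k → a k ≤ A * r ^ (k - j)) : ∑ k ∈ Finset.Ico j n, a k ≤ 2 * A := by
  calc _ ≤ ∑ k ∈ Finset.Ico j n, A * r ^ (k - j) :=
        Finset.sum_le_sum fun k hk => h k (Finset.mem_Ico.1 hk).1
    _ = A * ∑ k ∈ Finset.range (n - j), r ^ k := by
        rw [Finset.sum_Ico_eq_sum_range, Finset.mul_sum]
        simp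
    _ ≤ A * 2 := by
        apply mul_le_mul_of_nonneg_left _ hA
        calc _ ≤ ∑ k ∈ Finset.range (n - j), (1 / 2 : ℝ) ^ k := by gcongr
          _ ≤ 2 := sum_geometric_two_le _
    _ = 2 * A := by ring

section Anti

variable {E : Type*} [NormedAddCommGroup E] [NormedSpace ℝ E] [CompleteSpace E]

/-- Value at `0` of the mean-zero antiderivative of a `2π`-periodic mean-zero function. -/
noncomputable def anti (φ : ℝ → E) : E :=
  -(1 / (2 * π)) • ∫ u in (0 : ℝ)..2 * π, ∫ r in (0 : ℝ)..u, φ r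

lemma continuous_prim {φ : ℝ → E} (hφ : Continuous φ) :
    Continuous fun u => ∫ r in (0 : ℝ)..u, φ r :=
  intervalIntegral.continuous_primitive (fun a b => hφ.intervalIntegrable a b) 0

lemma anti_shift {φ : ℝ → E} (hφ : Continuous φ) (hp : Function.Periodic φ (2 * π))
    (h0 : ∫ r in (0 : ℝ)..2 * π, φ r = 0) (y : ℝ) :
    anti (fun r => φ (y + r)) - anti φ = ∫ r in (0 : ℝ)..y, φ r := by
  set Φ : ℝ → E := fun u => ∫ r in (0 : ℝ)..u, φ r with hΦ
  have hΦc : Continuous Φ := continuous_prim hφ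
  have hΦp : Function.Periodic Φ (2 * π) := by
    intro u
    simp only [hΦ]
    rw [← intervalIntegral.integral_add_adjacent_intervals (hφ.intervalIntegrable 0 u)
      (hφ.intervalIntegrable u (u + 2 * π)), hp.intervalIntegral_add_eq u 0, zero_add, h0,
      add_zero]
  have h1 : ∀ u, ∫ r in (0 : ℝ)..u, φ (y + r) = Φ (y + u) - Φ y := by
    intro u
    rw [intervalIntegral.integral_comp_add_left φ y, add_zero]
    simp only [hΦ]
    rw [intervalIntegral.integral_interval_sub_left (hφ.intervalIntegrable _ _)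
      (hφ.intervalIntegrable _ _)]
  have h2 : ∫ u in (0 : ℝ)..2 * π, Φ (y + u) = ∫ u in (0 : ℝ)..2 * π, Φ u := by
    rw [intervalIntegral.integral_comp_add_left Φ y, add_zero, hΦp.intervalIntegral_add_eq y 0,
      zero_add]
  unfold anti
  simp only [h1]
  have hc2 : Continuous fun u => Φ (y + u) := hΦc.comp (by fun_prop)
  rw [intervalIntegral.integral_sub (hc2.intervalIntegrable _ _)
    (continuous_const.intervalIntegrable _ _), h2, intervalIntegral.integral_const, sub_zero,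
    smul_sub, smul_smul]
  have : -(1 / (2 * π)) * (2 * π) = -1 := by field_simp
  rw [this]
  simp [hΦ]

lemma norm_anti_le {φ : ℝ → E} (hφ : Continuous φ) :
    ‖anti φ‖ ≤ ∫ r in (0 : ℝ)..2 * π, ‖φ r‖ := by
  have hπ : 0 < 2 * π := by positivity
  unfold anti
  rw [norm_smul, norm_neg, Real.norm_eq_abs, abs_of_pos (by positivity)]
  have h1 : ‖∫ u in (0 : ℝ)..2 * π, ∫ r in (0 : ℝ)..u, φ r‖ ≤
      (∫ r in (0 : ℝ)..2 * π, ‖φ r‖) * |2 * π - 0| := by
    apply intervalIntegral.norm_integral_le_of_norm_le_const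
    intro u hu
    rw [Set.uIoc_of_le hπ.le] at hu
    refine (intervalIntegral.norm_integral_le_integral_norm hu.1.le).trans ?_
    apply intervalIntegral.integral_mono_interval le_rfl hu.1.le hu.2
    · exact Filter.Eventually.of_forall fun r => norm_nonneg _
    · exact hφ.norm.intervalIntegrable _ _
  rw [sub_zero, abs_of_pos hπ] at h1
  calc _ ≤ 1 / (2 * π) * ((∫ r in (0 : ℝ)..2 * π, ‖φ r‖) * (2 * π)) := by gcongr
    _ = _ := by field_simp

lemma norm_anti_le_const {φ : ℝ → E} (hφ : Continuous φ) {B : ℝ} (hB : ∀ r, ‖φ r‖ ≤ B) :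
    ‖anti φ‖ ≤ 7 * B := by
  refine (norm_anti_le hφ).trans ?_
  have hB0 : 0 ≤ B := (norm_nonneg _).trans (hB 0)
  have := intervalIntegral.norm_integral_le_of_norm_le_const (a := 0) (b := 2 * π)
    (f := fun r => ‖φ r‖) (C := B) (fun r _ => by simpa using hB r)
  rw [sub_zero, abs_of_pos (by positivity), Real.norm_eq_abs] at this
  refine (le_abs_self _).trans (this.trans ?_)
  nlinarith only [hB0, Real.pi_lt_d2]

lemma anti_sub {φ ψ : ℝ → E} (hφ : Continuous φ) (hψ : Continuous ψ) :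
    anti φ - anti ψ = anti (fun r => φ r - ψ r) := by
  unfold anti
  rw [← smul_sub, ← intervalIntegral.integral_sub ((continuous_prim hφ).intervalIntegrable _ _)
    ((continuous_prim hψ).intervalIntegrable _ _)]
  congr 2
  funext u
  rw [intervalIntegral.integral_sub (hφ.intervalIntegrable _ _) (hψ.intervalIntegrable _ _)]

lemma integral_taylor {φ : ℝ → E} (hφ : Continuous φ) {L : ℝ} (hL0 : 0 ≤ L)
    (hL : ∀ r, ‖φ r - φ 0‖ ≤ L * |r|) (y : ℝ) :
    ‖(∫ r in (0 : ℝ)..y, φ r) - y • φ 0‖ ≤ L * y ^ 2 := by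
  have : (∫ r in (0 : ℝ)..y, φ r) - y • φ 0 = ∫ r in (0 : ℝ)..y, (φ r - φ 0) := by
    rw [intervalIntegral.integral_sub (hφ.intervalIntegrable _ _)
      (continuous_const.intervalIntegrable _ _), intervalIntegral.integral_const, sub_zero]
  rw [this]
  have h := intervalIntegral.norm_integral_le_of_norm_le_const (a := 0) (b := y)
    (f := fun r => φ r - φ 0) (C := L * |y|) (fun r hr => (hL r).trans (by
      apply mul_le_mul_of_nonneg_left _ hL0
      have := Set.abs_sub_left_of_mem_uIcc (Set.uIoc_subset_uIcc hr)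
      simpa using this))
  rw [sub_zero, mul_assoc, abs_mul_abs_self] at h
  rw [pow_two]; exact h

lemma integral_zero_of_antiperiodic {φ : ℝ → E} (hφ : Continuous φ)
    (h : ∀ r, φ (r + π) = -φ r) : ∫ r in (0 : ℝ)..2 * π, φ r = 0 := by
  rw [← intervalIntegral.integral_add_adjacent_intervals (hφ.intervalIntegrable 0 π)
    (hφ.intervalIntegrable π (2 * π))]
  have : ∫ r in π..2 * π, φ r = ∫ r in (0 : ℝ)..π, φ (r + π) := by
    rw [intervalIntegral.integral_comp_add_right φ π]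
    congr 1 <;> ring
  rw [this]
  simp only [h]
  rw [intervalIntegral.integral_neg, add_neg_cancel]

end Anti

end Pool.Agent.Work.MP_689d9c_gt
end

-- merged part: Pool.Agent.Work.MP_689d9c_gt.Good
section
set_option autoImplicit false

namespace Pool.Agent.Work.MP_689d9c_gt

open Real

/-- Bounded functions that are Lipschitz for the gauge `gN`. -/
def Good (f : Hs → ℝ) : Prop :=
  ∃ C : ℝ, 0 ≤ C ∧ (∀ p, |f p| ≤ C) ∧ ∀ p q, |f q - f p| ≤ C * gN p q

lemma Good.const (c : ℝ) : Good fun _ => c :=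
  ⟨|c|, abs_nonneg _, fun _ => le_rfl, fun p q => by
    rw [sub_self, abs_zero]; exact mul_nonneg (abs_nonneg _) (gN_nonneg _ _)⟩

lemma Good.add {f g : Hs → ℝ} (hf : Good f) (hg : Good g) : Good fun p => f p + g p := by
  obtain ⟨A, hA, hA1, hA2⟩ := hf
  obtain ⟨B, hB, hB1, hB2⟩ := hg
  refine ⟨A + B, by positivity, fun p => (abs_add_le _ _).trans (add_le_add (hA1 p) (hB1 p)),
    fun p q => ?_⟩
  rw [add_sub_add_comm, add_mul]
  exact (abs_add_le _ _).trans (add_le_add (hA2 p q) (hB2 p q))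

lemma Good.mul {f g : Hs → ℝ} (hf : Good f) (hg : Good g) : Good fun p => f p * g p := by
  obtain ⟨A, hA, hA1, hA2⟩ := hf
  obtain ⟨B, hB, hB1, hB2⟩ := hg
  refine ⟨2 * (A * B), by positivity, fun p => ?_, fun p q => ?_⟩
  · rw [abs_mul]
    have := mul_le_mul (hA1 p) (hB1 p) (abs_nonneg _) hA
    nlinarith only [this, hA, hB, mul_nonneg hA hB]
  · have e : f q * g q - f p * g p = (f q - f p) * g q + f p * (g q - g p) := by ring
    rw [e]
    refine (abs_add_le _ _).trans ?_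
    rw [abs_mul, abs_mul]
    have h1 := mul_le_mul (hA2 p q) (hB1 q) (abs_nonneg _) (mul_nonneg hA (gN_nonneg p q))
    have h2 := mul_le_mul (hA1 p) (hB2 p q) (abs_nonneg _) hA
    linarith

lemma Good.sub {f g : Hs → ℝ} (hf : Good f) (hg : Good g) : Good fun p => f p - g p := by
  have := hf.add ((Good.const (-1)).mul hg)
  simpa [sub_eq_add_neg] using this

lemma Good.inv {f : Hs → ℝ} (hf : Good f) {δ : ℝ} (hδ : 0 < δ) (h : ∀ p, δ ≤ f p) :
    Good fun p => (f p)⁻¹ := by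
  obtain ⟨A, hA, hA1, hA2⟩ := hf
  refine ⟨δ⁻¹ + A * δ⁻¹ * δ⁻¹, by positivity, fun p => ?_, fun p q => ?_⟩
  · have hp : 0 < f p := hδ.trans_le (h p)
    rw [abs_of_pos (inv_pos.2 hp)]
    have := inv_anti₀ hδ (h p)
    have : 0 ≤ A * δ⁻¹ * δ⁻¹ := by positivity
    linarith
  · have hp : 0 < f p := hδ.trans_le (h p)
    have hq : 0 < f q := hδ.trans_le (h q)
    have e : (f q)⁻¹ - (f p)⁻¹ = -(f q - f p) * (f p)⁻¹ * (f q)⁻¹ := by field_simp; ring
    rw [e, abs_mul, abs_mul, abs_neg, abs_of_pos (inv_pos.2 hp), abs_of_pos (inv_pos.2 hq)]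
    have h1 := inv_anti₀ hδ (h p)
    have h2 := inv_anti₀ hδ (h q)
    have h3 := gN_nonneg p q
    calc _ ≤ A * gN p q * δ⁻¹ * δ⁻¹ := by gcongr; exact hA2 p q
      _ ≤ A * gN p q * δ⁻¹ * δ⁻¹ + δ⁻¹ * gN p q := le_add_of_nonneg_right (by positivity)
      _ = _ := by ring

lemma Good.sqrt {f : Hs → ℝ} (hf : Good f) {δ : ℝ} (hδ : 0 < δ) (h : ∀ p, δ ^ 2 ≤ f p) :
    Good fun p => √(f p) := by
  obtain ⟨A, hA, hA1, hA2⟩ := hf
  refine ⟨√A + A * δ⁻¹, by positivity, fun p => ?_, fun p q => ?_⟩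
  · rw [abs_of_nonneg (Real.sqrt_nonneg _)]
    have := Real.sqrt_le_sqrt ((le_abs_self _).trans (hA1 p))
    have : 0 ≤ A * δ⁻¹ := by positivity
    linarith
  · have hp : 0 ≤ f p := (sq_nonneg δ).trans (h p)
    have hq : 0 ≤ f q := (sq_nonneg δ).trans (h q)
    have hp' : δ ≤ √(f p) := Real.le_sqrt_of_sq_le (h p)
    have e : (√(f q) - √(f p)) * (√(f q) + √(f p)) = f q - f p := by
      have h1 := Real.mul_self_sqrt hp
      have h2 := Real.mul_self_sqrt hq
      linarith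
    have h3 := gN_nonneg p q
    have h4 : |√(f q) - √(f p)| * δ ≤ A * gN p q := by
      refine le_trans ?_ (hA2 p q)
      rw [← e, abs_mul]
      apply mul_le_mul_of_nonneg_left _ (abs_nonneg _)
      exact le_trans (by linarith [Real.sqrt_nonneg (f q)]) (le_abs_self _)
    rw [← le_div_iff₀ hδ] at h4
    refine h4.trans ?_
    have : 0 ≤ √A * gN p q := by positivity
    rw [add_mul, div_eq_mul_inv]
    linarith

lemma Good.dil {f : Hs → ℝ} (hf : Good f) {r : ℝ} (hr0 : 0 ≤ r) (hr : r ≤ 1) :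
    Good fun p => f (dil r p) := by
  obtain ⟨A, hA, hA1, hA2⟩ := hf
  refine ⟨A, hA, fun p => hA1 _, fun p q => (hA2 _ _).trans ?_⟩
  apply mul_le_mul_of_nonneg_left _ hA
  rw [gN_dil hr0, gN]
  have : r ^ 2 ≤ 1 := by nlinarith only [hr, hr0]
  nlinarith only [hr, this, abs_nonneg (q.1 - p.1), abs_nonneg (q.2.1 - p.2.1), abs_nonneg (om p q)]

lemma Good.continuous_vt {f : Hs → ℝ} (hf : Good f) (p : Hs) : Continuous fun r => f (vt p r) := by
  obtain ⟨A, hA, -, hA2⟩ := hf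
  apply LipschitzWith.continuous (K := ⟨A, hA⟩)
  apply LipschitzWith.of_dist_le_mul
  intro a b
  have := hA2 (vt p b) (vt p a)
  rw [show a = b + (a - b) by ring, ← vt_vt, gN_vt, vt_vt, add_sub_cancel] at this
  exact this

lemma Good.anti {f : Hs → ℝ} (hf : Good f) : Good fun p => anti fun r => f (vt p r) := by
  have hc := hf.continuous_vt
  obtain ⟨A, hA, hA1, hA2⟩ := hf
  refine ⟨7 * A, by positivity, fun p => norm_anti_le_const (hc p) fun r => hA1 _,
    fun p q => ?_⟩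
  rw [anti_sub (hc q) (hc p), mul_assoc]
  refine norm_anti_le_const ((hc q).sub (hc p)) fun r => ?_
  rw [← gN_vt_vt p q r]
  exact hA2 _ _

/-- A cut-off function. -/
noncomputable def chi (y : ℝ) : ℝ := max 0 (min 1 (3 - 4 * |y|))

lemma chi_nonneg (y : ℝ) : 0 ≤ chi y := le_max_left _ _

lemma chi_le_one (y : ℝ) : chi y ≤ 1 := max_le zero_le_one (min_le_left _ _)

lemma chi_eq_one {y : ℝ} (h : |y| ≤ 1 / 2) : chi y = 1 := by
  rw [chi, min_eq_left (by linarith only [h]), max_eq_right zero_le_one]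

lemma chi_le {y : ℝ} (h : |y| ≤ 1) : chi y ≤ 4 * (1 - |y|) :=
  max_le (by linarith) ((min_le_right _ _).trans (by linarith))

lemma chi_lip (y y' : ℝ) : |chi y' - chi y| ≤ 4 * |y' - y| := by
  have h1 := abs_abs_sub_abs_le_abs_sub y' y
  have h2 : |min 1 (3 - 4 * |y'|) - min 1 (3 - 4 * |y|)| ≤ 4 * |y' - y| := by
    refine (abs_min_sub_min_le_max _ _ _ _).trans (max_le (by simp) ?_)
    rw [show 3 - 4 * |y'| - (3 - 4 * |y|) = -4 * (|y'| - |y|) by ring, abs_mul]
    norm_num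
    linarith
  exact (abs_max_sub_max_le_max _ _ _ _).trans (max_le (by simp) h2)

/-- The centre of the strip of parity `a` containing `y`. -/
noncomputable def ctr (a : ℤ) (y : ℝ) : ℤ := 2 * ⌊(y - a + 1) / 2⌋ + a

lemma abs_sub_ctr (a : ℤ) (y : ℝ) : |y - ctr a y| ≤ 1 := by
  have h1 := Int.floor_le ((y - a + 1) / 2)
  have h2 := Int.lt_floor_add_one ((y - a + 1) / 2)
  rw [ctr, abs_le]
  push_cast
  constructor <;> linarith only [h1, h2]

lemma ctr_cover (y : ℝ) : |y - ctr 0 y| ≤ 1 / 2 ∨ |y - ctr 1 y| ≤ 1 / 2 := by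
  have h := abs_sub_round y
  have h' := abs_le.1 h
  obtain ⟨k, hk | hk⟩ := Int.even_or_odd' (round y)
  · left
    have : ⌊(y - (0 : ℤ) + 1) / 2⌋ = k := by
      rw [hk] at h'
      push_cast at h' ⊢
      rw [Int.floor_eq_iff]
      constructor <;> linarith only [h']
    rw [ctr, this, add_zero, ← hk]; exact h
  · right
    have : ⌊(y - (1 : ℤ) + 1) / 2⌋ = k := by
      rw [hk] at h'
      push_cast at h' ⊢
      rw [Int.floor_eq_iff]
      constructor <;> linarith only [h']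
    rw [ctr, this, ← hk]; exact h

/-- The cut-off of the strips of parity `a`. -/
noncomputable def ch (a : ℤ) (p : Hs) : ℝ := chi (p.2.1 - ctr a p.2.1)

/-- The phase on the strips of parity `a`. -/
noncomputable def th (a : ℤ) (p : Hs) : ℝ := p.2.2 - 2 * p.1 * p.2.1 + 4 * ctr a p.2.1 * p.1

lemma ch_vt (a : ℤ) (p : Hs) (r : ℝ) : ch a (vt p r) = ch a p := rfl

lemma th_vt (a : ℤ) (p : Hs) (r : ℝ) : th a (vt p r) = th a p + r := by
  simp only [th, vt]; ring

lemma good_strip (a : ℤ) {φ : ℝ → ℝ} {l : ℝ} (hl : 0 ≤ l) (h1 : ∀ x, |φ x| ≤ 1)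
    (h2 : ∀ x x', |φ x' - φ x| ≤ l * |x' - x|) : Good fun p => ch a p * φ (th a p) := by
  have hc : ∀ p, 0 ≤ ch a p := fun p => chi_nonneg _
  have hb : ∀ p, |ch a p * φ (th a p)| ≤ ch a p := by
    intro p
    rw [abs_mul, abs_of_nonneg (hc p)]
    exact mul_le_of_le_one_right (chi_nonneg _) (h1 _)
  refine ⟨4 + 4 * l, by positivity, fun p => (hb p).trans ((chi_le_one _).trans (by linarith)),
    fun p q => ?_⟩
  have hx := abs_nonneg (q.1 - p.1)
  have hy := abs_nonneg (q.2.1 - p.2.1)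
  have hw := abs_nonneg (om p q)
  have hp := abs_sub_ctr a p.2.1
  have hq := abs_sub_ctr a q.2.1
  by_cases h : ctr a p.2.1 = ctr a q.2.1
  · have e : ch a q * φ (th a q) - ch a p * φ (th a p) =
        (ch a q - ch a p) * φ (th a q) + ch a p * (φ (th a q) - φ (th a p)) := by ring
    rw [e]
    refine (abs_add_le _ _).trans ?_
    rw [abs_mul, abs_mul, abs_of_nonneg (hc p)]
    have h3 : |ch a q - ch a p| ≤ 4 * |q.2.1 - p.2.1| := by
      refine (chi_lip _ _).trans (le_of_eq ?_)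
      rw [h]; congr 2; ring
    have h4 : |th a q - th a p| ≤ |om p q| + 4 * |q.1 - p.1| := by
      have : th a q - th a p = om p q +
          (-2 * ((p.2.1 - ctr a p.2.1) + (q.2.1 - ctr a q.2.1))) * (q.1 - p.1) := by
        simp only [th, om, h]; ring
      rw [this]
      refine (abs_add_le _ _).trans (add_le_add le_rfl ?_)
      rw [abs_mul]
      apply mul_le_mul_of_nonneg_right _ hx
      rw [abs_mul]
      have := abs_add_le (p.2.1 - ctr a p.2.1) (q.2.1 - ctr a q.2.1)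
      norm_num
      linarith
    have h5 := mul_le_mul h3 (h1 (th a q)) (abs_nonneg _) (by positivity)
    have hc1 : ch a p ≤ 1 := chi_le_one _
    have h6 := mul_le_mul hc1
      ((h2 (th a p) (th a q)).trans (mul_le_mul_of_nonneg_left h4 hl)) (abs_nonneg _) zero_le_one
    rw [gN]
    clear * - a q p φ l hx hw h5 h6 hl hy
    nlinarith only [hx, hw, h5, h6, hl, hy, mul_nonneg hl hx, mul_nonneg hl hy, mul_nonneg hl hw]
  · have h3 : ch a p + ch a q ≤ 4 * |q.2.1 - p.2.1| := by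
      clear * - p a hp q hq h
      have h4 := chi_le hp
      have h5 := chi_le hq
      have h6 : (2 : ℝ) ≤ |(ctr a q.2.1 : ℝ) - ctr a p.2.1| := by
        have : (2 : ℤ) ≤ |ctr a q.2.1 - ctr a p.2.1| := by
          simp only [ctr] at h ⊢
          rw [le_abs]
          omega
        exact_mod_cast this
      have h7 : |(ctr a q.2.1 : ℝ) - ctr a p.2.1| ≤
          |q.2.1 - p.2.1| + |p.2.1 - ctr a p.2.1| + |q.2.1 - ctr a q.2.1| := by
        have : (ctr a q.2.1 : ℝ) - ctr a p.2.1 =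
            (q.2.1 - p.2.1) + (p.2.1 - ctr a p.2.1) - (q.2.1 - ctr a q.2.1) := by ring
        rw [this]
        exact (abs_sub _ _).trans (add_le_add_left (abs_add_le _ _) _)
      simp only [ch]
      linarith only [h4, h5, h6, h7]
    refine (abs_sub _ _).trans ?_
    have := hb p
    have := hb q
    rw [gN]
    nlinarith [mul_nonneg hl hx, mul_nonneg hl hy, mul_nonneg hl hw]

end Pool.Agent.Work.MP_689d9c_gt
end

-- merged part: Pool.Agent.Work.MP_689d9c_gt.S.Pat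
section
/-! Patterns: displacements with moving frames, and their composition. -/

set_option autoImplicit false

namespace Pool.Agent.Work.MP_689d9c_gt

variable {X Y V : Type} [NormedAddCommGroup V] [NormedSpace ℝ V]

/-- The displacement `D` with frames `R` turns the nominal differences `L` into `L'`. -/
structure Pat (L L' : X → X → V) (η γ κ ρ : ℝ) (D : X → V) (R : X → V →L[ℝ] V) : Prop where
  iso : ∀ p v, ‖R p v‖ = ‖v‖
  mono : ∀ p q, ‖L p q‖ ≤ ‖L' p q‖
  lin : ∀ p q, ‖L' p q‖ ≤ ρ → ‖L p q + (D q - D p) - R p (L' p q)‖ ≤ η * ‖L' p q‖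
  fr : ∀ p q, ‖L' p q‖ ≤ ρ → ‖R q - R p‖ ≤ κ * ‖L' p q‖
  sep : ∀ p q, ρ ≤ ‖L' p q‖ → ρ / 24 + γ * ‖L p q‖ ≤ ‖L p q + (D q - D p)‖

variable {L L' L'' : X → X → V} {η γ κ ρ η' γ' κ' ρ' : ℝ} {D D' : X → V} {R R' : X → V →L[ℝ] V}

theorem Pat.weak (h : Pat L L' η γ κ ρ D R) (h1 : η ≤ η') (h2 : γ' ≤ γ) (h3 : κ ≤ κ') (h4 : ρ' ≤ ρ)
    (h5 : η ≤ 1 / 2) (h6 : γ' ≤ 1 / 4) : Pat L L' η' γ' κ' ρ' D R := by
  refine ⟨h.iso, h.mono, fun p q hq => (h.lin p q (hq.trans h4)).trans (by gcongr),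
    fun p q hq => (h.fr p q (hq.trans h4)).trans (by gcongr), fun p q hq => ?_⟩
  have a0 := norm_nonneg (L p q)
  rcases le_total ρ ‖L' p q‖ with h7 | h7
  · have := h.sep p q h7
    nlinarith only [h4, this, h2, a0]
  · have a1 := h.lin p q h7
    have a2 := norm_sub_norm_le (R p (L' p q)) (L p q + (D q - D p))
    rw [h.iso, norm_sub_rev] at a2
    have a3 := h.mono p q
    nlinarith only [hq, a0, a1, a2, a3, h5, h6]

theorem Pat.refl (L : X → X → V) (ρ : ℝ) :
    Pat L L 0 (1 / 4) 0 ρ 0 fun _ => ContinuousLinearMap.id ℝ V := by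
  refine ⟨fun _ _ => rfl, fun _ _ => le_rfl, by simp, by simp, fun p q h => ?_⟩
  simp only [Pi.zero_apply, sub_zero, add_zero]
  linarith only [h, norm_nonneg (L p q)]

theorem Pat.pull (h : Pat L L' η γ κ ρ D R) (g : Y → X) {a : ℝ} (ha : 0 < a) :
    Pat (fun p q => a • L (g p) (g q)) (fun p q => a • L' (g p) (g q)) η γ (κ / a) (a * ρ)
      (fun p => a • D (g p)) fun p => R (g p) := by
  have e : ∀ v : V, ‖a • v‖ = a * ‖v‖ := fun v => by rw [norm_smul, Real.norm_of_nonneg ha.le]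
  refine ⟨fun p => h.iso _, fun p q => ?_, fun p q hq => ?_, fun p q hq => ?_, fun p q hq => ?_⟩
  · rw [e, e]
    exact mul_le_mul_of_nonneg_left (h.mono _ _) ha.le
  · rw [e, mul_le_mul_iff_right₀ ha] at hq
    rw [map_smul, ← smul_sub, ← smul_add, ← smul_sub, e, e, mul_left_comm]
    exact mul_le_mul_of_nonneg_left (h.lin _ _ hq) ha.le
  · rw [e, mul_le_mul_iff_right₀ ha] at hq
    rw [e, ← mul_assoc, div_mul_cancel₀ _ ha.ne']
    exact h.fr _ _ hq
  · rw [e, mul_le_mul_iff_right₀ ha] at hq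
    rw [← smul_sub, ← smul_add, e, e, mul_left_comm, mul_div_assoc, ← mul_add]
    exact mul_le_mul_of_nonneg_left (h.sep _ _ hq) ha.le

theorem Pat.norm_le (h : Pat L L' η γ κ ρ D R) (p : X) : ‖R p‖ ≤ 1 :=
  ContinuousLinearMap.opNorm_le_bound _ zero_le_one fun v => by rw [h.iso, one_mul]

theorem Pat.comp (h : Pat L L' η γ κ ρ D R) (h' : Pat L' L'' η' γ' κ' ρ' D' R') (Dn : X → V)
    {A d γ'' : ℝ} (hA : ∀ p, ‖D' p - Dn p‖ ≤ A) (hR : ∀ p q, R p (Dn q) = Dn q)
    (hO : ∀ p q, ‖L p q + (D q - D p)‖ ≤ ‖L p q + (D q - D p) + (Dn q - Dn p)‖)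
    (hd : ∀ p q, ‖L' p q‖ ≤ d * ‖L'' p q‖) (h0 : 0 ≤ η) (h1 : 0 ≤ κ) (h2 : ρ' ≤ ρ)
    (h3 : 48 * A ≤ ρ - ρ') (h4 : 0 ≤ γ'') (h5 : γ'' ≤ γ) (h6 : γ'' + η + κ * A ≤ γ') :
    Pat L L'' ((η + κ * A) * d + η') γ'' (κ + κ') ρ' (fun p => D p + R p (D' p))
      fun p => (R p).comp (R' p) := by
  have e : ∀ p q, L p q + (D q + R q (D' q) - (D p + R p (D' p))) =
      (L p q + (D q - D p) - R p (L' p q)) + (R q - R p) (D' q - Dn q) +
        R p (L' p q + (D' q - D' p)) := fun p q => by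
    simp only [map_add, map_sub, ContinuousLinearMap.sub_apply, hR]
    abel
  have k : ∀ p q, ‖L' p q‖ ≤ ρ → ‖(L p q + (D q - D p) - R p (L' p q)) + (R q - R p) (D' q - Dn q)‖ ≤
      (η + κ * A) * ‖L' p q‖ := fun p q hq => by
    refine (norm_add_le _ _).trans ((add_le_add (h.lin p q hq) (((R q - R p).le_opNorm _).trans
      (mul_le_mul (h.fr p q hq) (hA q) (norm_nonneg _) (by positivity)))).trans_eq (by ring))
  refine ⟨fun p v => by rw [ContinuousLinearMap.comp_apply, h.iso, h'.iso],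
    fun p q => (h.mono p q).trans (h'.mono p q), fun p q hq => ?_, fun p q hq => ?_, fun p q hq => ?_⟩
  · have hA0 := (norm_nonneg _).trans (hA p)
    rw [e, add_sub_assoc, ContinuousLinearMap.comp_apply, ← map_sub, add_mul, mul_assoc]
    refine (norm_add_le _ _).trans (add_le_add ((k p q ((h'.mono p q).trans (hq.trans h2))).trans
      (mul_le_mul_of_nonneg_left (hd p q) (by positivity))) ?_)
    rw [h.iso]
    exact h'.lin p q hq
  · have e1 : (R q).comp (R' q) - (R p).comp (R' p) =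
        (R q - R p).comp (R' q) + (R p).comp (R' q - R' p) := by
      rw [ContinuousLinearMap.sub_comp, ContinuousLinearMap.comp_sub, sub_add_sub_cancel]
    rw [e1, add_mul]
    refine (norm_add_le _ _).trans (add_le_add ((ContinuousLinearMap.opNorm_comp_le _ _).trans ?_)
      ((ContinuousLinearMap.opNorm_comp_le _ _).trans ?_))
    · refine (mul_le_of_le_one_right (norm_nonneg _) (h'.norm_le q)).trans
        ((h.fr p q ((h'.mono p q).trans (hq.trans h2))).trans ?_)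
      exact mul_le_mul_of_nonneg_left (h'.mono p q) h1
    · exact (mul_le_of_le_one_left (norm_nonneg _) (h.norm_le p)).trans (h'.fr p q hq)
  · have a0 := norm_nonneg (L p q)
    rcases le_total ρ ‖L' p q‖ with h7 | h7
    · have e1 : L p q + (D q - D p) + (Dn q - Dn p) = L p q + (D q + R q (D' q) - (D p + R p (D' p)))
          + (R p (D' p - Dn p) - R q (D' q - Dn q)) := by
        simp only [map_sub, hR]
        abel
      have a1 := (h.sep p q h7).trans (hO p q)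
      rw [e1] at a1
      have a2 := a1.trans ((norm_add_le _ _).trans (add_le_add le_rfl (norm_sub_le _ _)))
      rw [h.iso, h.iso] at a2
      nlinarith only [h3, a2, h5, a0, hA p, hA q]
    · have a1 := k p q h7
      have a2 := h'.sep p q hq
      have a3 := h.mono p q
      rw [← h.iso p (L' p q + _)] at a2
      rw [e]
      have a4 := norm_sub_le ((L p q + (D q - D p) - R p (L' p q)) + (R q - R p) (D' q - Dn q) +
        R p (L' p q + (D' q - D' p))) ((L p q + (D q - D p) - R p (L' p q)) + (R q - R p) (D' q - Dn q))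
      rw [add_sub_cancel_left] at a4
      clear * - ρ' γ'' V L p q D R L' D' Dn η κ A γ' a1 a2 a4 h4 a3 h6 a0
      nlinarith only [a1, a2, a4, h4, a3, h6, a0]

theorem Pat.comp0 (h : Pat L L' η γ κ ρ D R) (h' : Pat L' L'' η' γ' κ' ρ' D' R')
    {A d γ'' : ℝ} (hA : ∀ p, ‖D' p‖ ≤ A)
    (hd : ∀ p q, ‖L' p q‖ ≤ d * ‖L'' p q‖) (h0 : 0 ≤ η) (h1 : 0 ≤ κ) (h2 : ρ' ≤ ρ)
    (h3 : 48 * A ≤ ρ - ρ') (h4 : 0 ≤ γ'') (h5 : γ'' ≤ γ) (h6 : γ'' + η + κ * A ≤ γ') :
    Pat L L'' ((η + κ * A) * d + η') γ'' (κ + κ') ρ' (fun p => D p + R p (D' p))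
      fun p => (R p).comp (R' p) :=
  h.comp h' 0 (by simpa using hA) (by simp) (by simp) hd h0 h1 h2 h3 h4 h5 h6

end Pool.Agent.Work.MP_689d9c_gt
end

-- merged part: Pool.Agent.Work.MP_689d9c_gt.S.LL
section
/-! The nominal differences on the Heisenberg group. -/

set_option autoImplicit false

namespace Pool.Agent.Work.MP_689d9c_gt

variable {V : Type} [NormedAddCommGroup V] [NormedSpace ℝ V]

/-- The nominal difference with weights `a`, `b`, `c`. -/
def LL (e0 e1 e2 : V) (a b c : ℝ) (p q : Hs) : V :=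
  (a * (q.1 - p.1)) • e0 + (b * (q.2.1 - p.2.1)) • e1 + (c * om p q) • e2

end Pool.Agent.Work.MP_689d9c_gt
end
end

-- merged part: Pool.Agent.Work.MP_689d9c_gt.S.Zig
section
-- merged part: Pool.Agent.Work.MP_689d9c_gt.S.Tri
section
/-! The triangle wave, clamping, and the chord estimates for one zigzag. -/

set_option autoImplicit false

namespace Pool.Agent.Work.MP_689d9c_gt

open Real

/-- Distance to the multiples of `2 π`. -/
noncomputable def nn (θ : ℝ) : ℝ := ‖(θ : AddCircle (2 * π))‖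

/-- The triangle wave. -/
noncomputable def TT (θ : ℝ) : ℝ := (nn θ - nn (θ + π)) / π

lemma nn_per (θ : ℝ) : nn (θ + 2 * π) = nn θ := by rw [nn, AddCircle.coe_add_period, nn]

lemma nn_le (θ : ℝ) : 0 ≤ nn θ ∧ nn θ ≤ π := by
  refine ⟨norm_nonneg _, (AddCircle.norm_le_half_period _ (by positivity)).trans_eq ?_⟩
  rw [abs_of_pos (by positivity)]
  ring

lemma nn_lip (a b : ℝ) : |nn b - nn a| ≤ |b - a| := by
  refine (abs_norm_sub_norm_le _ _).trans ?_
  rw [← AddCircle.coe_sub]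
  exact QuotientAddGroup.norm_mk_le_norm

lemma nn_eq {θ : ℝ} (h : |θ| ≤ π) : nn θ = |θ| := by
  refine (AddCircle.norm_coe_eq_abs_iff _ (by positivity)).2 (h.trans_eq ?_)
  rw [abs_of_pos (by positivity)]
  ring

lemma TT_abs (θ : ℝ) : |TT θ| ≤ 1 := by
  rw [TT, abs_div, abs_of_pos pi_pos, div_le_one pi_pos, abs_le]
  constructor <;> linarith [nn_le θ, nn_le (θ + π)]

lemma TT_lip (a b : ℝ) : |TT b - TT a| ≤ 1 * |b - a| := by
  have h1 := nn_lip a b
  have h2 := nn_lip (a + π) (b + π)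
  rw [add_sub_add_right_eq_sub] at h2
  rw [TT, TT, ← sub_div, abs_div, abs_of_pos pi_pos, div_le_iff₀ pi_pos, sub_sub_sub_comm]
  nlinarith only [h1, h2, abs_sub (nn b - nn a) (nn (b + π) - nn (a + π)), abs_nonneg (b - a), pi_gt_three]

lemma TT_pi (θ : ℝ) : TT (θ + π) = -TT θ := by
  rw [TT, TT, add_assoc, ← two_mul, nn_per]
  ring

lemma TT_eq {t : ℝ} (h0 : 0 ≤ t) (h1 : t ≤ π) : TT t = (2 * t - π) / π := by
  have e : t + π = t - π + 2 * π := by ring
  rw [TT, e, nn_per, nn_eq (by rwa [abs_of_nonneg h0]),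
    nn_eq (by rw [abs_le]; constructor <;> linarith), abs_of_nonneg h0, abs_of_nonpos (by linarith)]
  ring

lemma continuous_TT : Continuous TT :=
  (LipschitzWith.of_dist_le_mul (K := 1) fun a b => by simpa [Real.dist_eq] using TT_lip b a).continuous

/-- The point of `[u - c, u + c]` closest to `v`. -/
noncomputable def cl (c u v : ℝ) : ℝ := max (u - c) (min v (u + c))

lemma cl_neg {c : ℝ} (hc : 0 ≤ c) (u v : ℝ) : cl c (-u) (-v) = -cl c u v := by
  simp only [cl, max_def, min_def]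
  split_ifs <;> linarith

lemma cl_lip {c u v c' u' v' B : ℝ} (h1 : |u' - u| + |c' - c| ≤ B) (h2 : |v' - v| ≤ B) :
    |cl c' u' v' - cl c u v| ≤ B := by
  refine (abs_max_sub_max_le_max _ _ _ _).trans (max_le ?_
    ((abs_min_sub_min_le_max _ _ _ _).trans (max_le h2 ?_)))
  · rw [sub_sub_sub_comm]
    exact (abs_sub _ _).trans h1
  · rw [add_sub_add_comm]
    exact (abs_add_le _ _).trans h1

lemma cl_abs {c : ℝ} (hc : 0 ≤ c) (u v : ℝ) : |cl c u v - u| ≤ c := by
  rw [abs_le]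
  simp only [cl, max_def, min_def]
  split_ifs <;> constructor <;> linarith

/-- The angle attached to a signal. -/
noncomputable def ang (z : ℝ) : ℝ := cl (π / 2) 0 z

lemma ang_abs (z : ℝ) : |ang z| ≤ π / 2 := by
  simpa [ang] using cl_abs (c := π / 2) (by positivity) 0 z

lemma ang_neg (z : ℝ) : ang (-z) = -ang z := by
  simpa [ang] using cl_neg (c := π / 2) (by positivity) 0 z

lemma ang_lip (z z' : ℝ) : |ang z' - ang z| ≤ |z' - z| := cl_lip (by simp) le_rfl

lemma continuous_ang : Continuous ang := by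
  unfold ang cl
  fun_prop

lemma cos_ang_nonneg (z : ℝ) : 0 ≤ cos (ang z) :=
  cos_nonneg_of_mem_Icc (abs_le.1 (ang_abs z))

lemma cos_ang_zero {z : ℝ} (h : π / 2 ≤ |z|) : cos (ang z) = 0 := by
  have k : ∀ y, π / 2 ≤ y → cos (ang y) = 0 := fun y hy => by
    rw [ang, cl, zero_add, min_eq_right hy, max_eq_right (by linarith only [pi_pos]), cos_pi_div_two]
  rcases le_abs.1 h with h | h
  · exact k z h
  · rw [← cos_neg, ← ang_neg]
    exact k _ h

lemma bump_le {f : ℝ → ℝ} (hf : Continuous f) {t0 l : ℝ} (hl : 0 ≤ l) (h1 : ∀ t, f t ≤ 1)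
    (h2 : ∀ t ∈ Set.Icc 0 π, l ≤ |t - t0| → f t ≤ 0) : ∫ t in (0 : ℝ)..π, f t ≤ 2 * l := by
  have hi : MeasureTheory.Integrable ((Set.Icc (t0 - l) (t0 + l)).indicator (1 : ℝ → ℝ)) :=
    (MeasureTheory.integrable_indicator_iff measurableSet_Icc).2
      (continuous_const.integrableOn_Icc)
  refine (intervalIntegral.integral_mono_on pi_pos.le (hf.intervalIntegrable _ _)
    hi.intervalIntegrable fun t ht => ?_).trans ?_
  · by_cases h : t ∈ Set.Icc (t0 - l) (t0 + l)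
    · rw [Set.indicator_of_mem h]
      exact h1 t
    · rw [Set.indicator_of_notMem h]
      refine h2 t ht (le_of_not_ge fun h3 => h ?_)
      rw [abs_le] at h3
      constructor <;> linarith
  · rw [intervalIntegral.integral_of_le pi_pos.le]
    refine (MeasureTheory.setIntegral_le_integral hi (Filter.Eventually.of_forall fun t =>
      Set.indicator_nonneg (fun _ _ => zero_le_one) t)).trans ?_
    rw [MeasureTheory.integral_indicator_one measurableSet_Icc,
      Real.volume_real_Icc_of_le (by linarith)]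
    linarith

lemma int_cos_ang {K a : ℝ} (hK : 0 < K) (ha : 1 / 2 ≤ a) (θ c : ℝ) :
    ∫ t in (0 : ℝ)..2 * π, cos (ang (K * (a * TT (θ + t) + c))) ≤ 2 * (π ^ 2 / K) := by
  have hc : ∀ c, Continuous fun t => cos (ang (K * (a * TT t + c))) := fun c =>
    continuous_cos.comp (continuous_ang.comp (by have := continuous_TT; fun_prop))
  have ha0 : 0 < a := by linarith only [ha]
  have half : ∀ c, ∫ t in (0 : ℝ)..π, cos (ang (K * (a * TT t + c))) ≤ π ^ 2 / K := fun c => by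
    refine (bump_le (hc c) (t0 := π / 2 - c * π / (2 * a)) (l := π ^ 2 / (2 * K)) (by positivity)
      (fun t => cos_le_one _) fun t ht h => (cos_ang_zero ?_).le).trans_eq (by ring)
    have e : K * (a * ((2 * t - π) / π) + c) = 2 * K * a / π * (t - (π / 2 - c * π / (2 * a))) := by
      field_simp
      ring
    rw [TT_eq ht.1 ht.2, e, abs_mul, abs_of_pos (by positivity)]
    refine le_trans ?_ (mul_le_mul_of_nonneg_left h (by positivity))
    have e2 : 2 * K * a / π * (π ^ 2 / (2 * K)) = a * π := by field_simp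
    rw [e2]
    nlinarith only [ha, pi_pos]
  have hp : Function.Periodic (fun t => cos (ang (K * (a * TT t + c)))) (2 * π) := fun t => by
    simp only
    rw [two_mul, ← add_assoc, TT_pi, TT_pi, neg_neg]
  rw [intervalIntegral.integral_comp_add_left (fun t => cos (ang (K * (a * TT t + c)))) θ, add_zero,
    hp.intervalIntegral_add_eq θ 0, zero_add, ← intervalIntegral.integral_add_adjacent_intervals
      ((hc c).intervalIntegrable 0 π) ((hc c).intervalIntegrable π (2 * π)), two_mul (π ^ 2 / K)]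
  refine add_le_add (half c) (le_trans (Eq.le ?_) (half (-c)))
  have e := intervalIntegral.integral_comp_add_right (a := 0) (b := π)
    (fun t => cos (ang (K * (a * TT t + c)))) π
  rw [zero_add, ← two_mul] at e
  rw [← e]
  refine intervalIntegral.integral_congr fun t _ => ?_
  beta_reduce
  rw [TT_pi, ← cos_neg, ← ang_neg]
  congr 2
  ring

lemma chord_pos {φ : ℝ → ℝ} {K t : ℝ} (hK : 0 < K) (h1 : ∀ s, |φ s| ≤ π / 2) (hc : Continuous φ)
    (h2 : ∀ s s', |φ s' - φ s| ≤ K * |s' - s|) (ht : 0 ≤ t) :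
    0 ≤ ∫ s in (0 : ℝ)..t, cos (φ s) ∧
      min t (1 / K) ≤ 2 * ((∫ s in (0 : ℝ)..t, cos (φ s)) + |∫ s in (0 : ℝ)..t, sin (φ s)|) := by
  have c0 : ∀ s, 0 ≤ cos (φ s) := fun s => cos_nonneg_of_mem_Icc (abs_le.1 (h1 s))
  have i1 : ∀ a b, IntervalIntegrable (fun s => cos (φ s)) MeasureTheory.volume a b := fun a b =>
    (continuous_cos.comp hc).intervalIntegrable a b
  have i2 : ∀ a b, IntervalIntegrable (fun s => |sin (φ s)|) MeasureTheory.volume a b := fun a b =>
    (continuous_sin.comp hc).abs.intervalIntegrable a b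
  have p0 := intervalIntegral.integral_nonneg (μ := MeasureTheory.volume) ht fun s _ => c0 s
  refine ⟨p0, ?_⟩
  have k : (∫ s in (0 : ℝ)..t, |sin (φ s)|) ≤ |∫ s in (0 : ℝ)..t, sin (φ s)| →
      min t (1 / K) ≤ 2 * ((∫ s in (0 : ℝ)..t, cos (φ s)) + |∫ s in (0 : ℝ)..t, sin (φ s)|) := fun h => by
    clear * - t φ ht i1 i2 c0 K h
    have := intervalIntegral.integral_mono_on ht (continuous_const.intervalIntegrable 0 t)
      ((i1 0 t).add (i2 0 t)) (f := fun _ => (1 : ℝ)) fun s _ => by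
        nlinarith only [c0 s, cos_le_one (φ s), abs_nonneg (sin (φ s)), abs_sin_le_one (φ s),
          sq_abs (sin (φ s)), sin_sq_add_cos_sq (φ s)]
    rw [intervalIntegral.integral_add (i1 0 t) (i2 0 t), intervalIntegral.integral_const, sub_zero,
      smul_eq_mul, mul_one] at this
    linarith [min_le_left t (1 / K)]
  by_cases ha : ∀ s ∈ Set.Icc 0 t, 0 ≤ φ s
  · refine k (le_trans (Eq.le (intervalIntegral.integral_congr fun s hs => ?_)) (le_abs_self _))
    rw [Set.uIcc_of_le ht] at hs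
    exact abs_of_nonneg (sin_nonneg_of_mem_Icc ⟨ha s hs, by linarith only [abs_le.1 (h1 s), pi_pos]⟩)
  by_cases hb : ∀ s ∈ Set.Icc 0 t, φ s ≤ 0
  · refine k (le_trans (Eq.le ?_) (neg_le_abs _))
    rw [← intervalIntegral.integral_neg]
    refine intervalIntegral.integral_congr fun s hs => ?_
    rw [Set.uIcc_of_le ht] at hs
    exact abs_of_nonpos (sin_nonpos_of_nonpos_of_neg_pi_le (hb s hs)
      (by linarith only [abs_le.1 (h1 s), pi_pos]))
  push Not at ha hb
  obtain ⟨s1, hs1, h3⟩ := ha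
  obtain ⟨s2, hs2, h4⟩ := hb
  obtain ⟨s0, hs0, h5⟩ := isPreconnected_Icc.intermediate_value hs1 hs2 hc.continuousOn ⟨h3.le, h4.le⟩
  generalize hl : min t (1 / K) = l
  have l0 : 0 ≤ l := hl ▸ le_min ht (by positivity)
  have l1 : l ≤ t := hl ▸ min_le_left _ _
  have l2 : l * K ≤ 1 := (le_div_iff₀ hK).1 (hl ▸ min_le_right _ _)
  obtain ⟨u, u0, u1, u2, u3⟩ : ∃ u, 0 ≤ u ∧ u + l ≤ t ∧ u ≤ s0 ∧ s0 ≤ u + l := by
    rcases le_total s0 (t - l) with h | h
    · exact ⟨s0, hs0.1, by linarith, le_rfl, by linarith⟩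
    · exact ⟨t - l, by linarith, by linarith, h, by linarith [hs0.2]⟩
  have a1 := intervalIntegral.integral_mono_interval u0 (by linarith) u1
    (Filter.Eventually.of_forall c0) (i1 0 t)
  have a2 := intervalIntegral.integral_mono_on (by linarith : u ≤ u + l)
    (continuous_const.intervalIntegrable u (u + l)) (i1 _ _) (f := fun _ => (1 / 2 : ℝ)) fun s hs => by
      clear * - φ s s0 K h2 l u u3 hs u2 l2 h5 hK
      have b1 := h2 s0 s
      have b2 : |s - s0| ≤ l := abs_le.2 ⟨by linarith [hs.1], by linarith [hs.2]⟩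
      rw [h5, sub_zero] at b1
      have b3 : |φ s| ≤ 1 := by nlinarith only [l2, b1, hK, b2]
      nlinarith only [l2, b1, hK, b2, b3, one_sub_sq_div_two_le_cos (x := φ s), sq_abs (φ s), abs_nonneg (φ s)]
  rw [intervalIntegral.integral_const, add_sub_cancel_left, smul_eq_mul] at a2
  linarith only [a1, a2, abs_nonneg (∫ s in (0 : ℝ)..t, sin (φ s))]

/-- The relation between two points of a zigzag of stretch `m` at scale `α`. -/
structure Rel (m α τ a b φ ψ : ℝ) : Prop where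
  h1 : α * |a - m * τ * cos φ| ≤ α * |τ| + 10 * m ^ 2 * τ ^ 2
  h2 : α * |b - m * τ * sin φ| ≤ 10 * m ^ 2 * τ ^ 2
  h3 : α * |ψ - φ| ≤ 10 * m * |τ|
  h4 : min (m * |τ|) (α / 10) ≤ 2 * (|a| + |b|)

lemma Rel.scale {m t a b φ ψ α : ℝ} (h : Rel m 1 t a b φ ψ) (hα : 0 < α) :
    Rel m α (α * t) (α * a) (α * b) φ ψ := by
  have e : ∀ x, |α * x| = α * |x| := fun x => by rw [abs_mul, abs_of_pos hα]
  have h0 := sq_nonneg α
  refine ⟨?_, ?_, ?_, ?_⟩
  · rw [mul_left_comm m, mul_assoc α, ← mul_sub, e, e]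
    nlinarith only [h0, mul_le_mul_of_nonneg_left h.h1 h0]
  · rw [mul_left_comm m, mul_assoc α, ← mul_sub, e]
    nlinarith only [h0, mul_le_mul_of_nonneg_left h.h2 h0]
  · rw [e]
    nlinarith [mul_le_mul_of_nonneg_left h.h3 hα.le]
  · have := mul_le_mul_of_nonneg_left h.h4 hα.le
    rw [mul_min_of_nonneg _ _ hα.le, mul_one_div] at this
    rw [e, e, e, mul_left_comm]
    linarith

lemma rel_of_angle {φ : ℝ → ℝ} {m M : ℝ} (hm : 0 < m) (h1 : ∀ s, |φ s| ≤ π / 2) (hc : Continuous φ)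
    (h2 : ∀ s s', |φ s' - φ s| ≤ 10 * m * |s' - s|) (hM0 : 0 ≤ M) (hM : M ≤ 1) (t : ℝ) :
    Rel m 1 t (t + ∫ s in (0 : ℝ)..t, (m * cos (φ s) - M)) (∫ s in (0 : ℝ)..t, m * sin (φ s))
      (φ 0) (φ t) := by
  have c1 : Continuous fun s => cos (φ s) := continuous_cos.comp hc
  have c2 : Continuous fun s => sin (φ s) := continuous_sin.comp hc
  have k : ∀ s, |φ s - φ 0| ≤ 10 * m * |s| := fun s => by simpa using h2 0 s
  have t1 := integral_taylor c1 (by positivity) (fun s => (abs_cos_sub_cos_le _ _).trans (k s)) t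
  have t2 := integral_taylor c2 (by positivity) (fun s => (abs_sin_sub_sin_le _ _).trans (k s)) t
  rw [intervalIntegral.integral_sub ((c1.const_mul m).intervalIntegrable _ _)
    (continuous_const.intervalIntegrable _ _), intervalIntegral.integral_const_mul,
    intervalIntegral.integral_const_mul, intervalIntegral.integral_const, sub_zero, smul_eq_mul]
  rw [smul_eq_mul, Real.norm_eq_abs] at t1 t2
  have k4 : min |t| (1 / (10 * m)) ≤ 2 * (|∫ s in (0 : ℝ)..t, cos (φ s)| +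
      |∫ s in (0 : ℝ)..t, sin (φ s)|) ∧ m * |∫ s in (0 : ℝ)..t, cos (φ s)| ≤
        |t + (m * (∫ s in (0 : ℝ)..t, cos (φ s)) - t * M)| := by
    rcases le_total 0 t with ht | ht
    · obtain ⟨a1, a2⟩ := chord_pos (by positivity) h1 hc h2 ht
      rw [abs_of_nonneg ht, abs_of_nonneg a1]
      exact ⟨a2, le_trans (by nlinarith only [hM, ht]) (le_abs_self _)⟩
    · obtain ⟨a1, a2⟩ := chord_pos (φ := fun s => φ (-s)) (K := 10 * m) (by positivity)
        (fun s => h1 _) (by fun_prop) (fun s s' => by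
          simpa only [neg_sub_neg, abs_sub_comm s] using h2 (-s) (-s')) (neg_nonneg.2 ht)
      rw [intervalIntegral.integral_comp_neg fun s => cos (φ s), neg_neg, neg_zero,
        intervalIntegral.integral_symm] at a1 a2
      rw [intervalIntegral.integral_comp_neg fun s => sin (φ s), neg_neg, neg_zero,
        intervalIntegral.integral_symm 0 t, abs_neg] at a2
      rw [abs_of_nonpos ht, abs_of_nonpos (neg_nonneg.1 a1)]
      exact ⟨a2, le_trans (by nlinarith only [hM, ht]) (neg_le_abs _)⟩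
  generalize ∫ s in (0 : ℝ)..t, cos (φ s) = x at t1 k4 ⊢
  generalize ∫ s in (0 : ℝ)..t, sin (φ s) = y at t2 k4 ⊢
  refine ⟨?_, ?_, by simpa using k t, ?_⟩
  · have e : t + (m * x - t * M) - m * t * cos (φ 0) = (1 - M) * t + m * (x - t * cos (φ 0)) := by ring
    rw [e, one_mul]
    refine (abs_add_le _ _).trans ?_
    rw [abs_mul, abs_mul, abs_of_pos hm, abs_of_nonneg (by linarith)]
    nlinarith only [t1, hm, hM0, abs_nonneg t, mul_le_mul_of_nonneg_left t1 hm.le]
  · rw [mul_assoc m, ← mul_sub, abs_mul, abs_of_pos hm]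
    nlinarith only [t2, hm, mul_le_mul_of_nonneg_left t2 hm.le]
  · have := mul_le_mul_of_nonneg_left k4.1 hm.le
    rw [mul_min_of_nonneg _ _ hm.le, show m * (1 / (10 * m)) = 1 / 10 by field_simp] at this
    rw [abs_mul m y, abs_of_pos hm]
    linarith only [k4, this, k4.2]

end Pool.Agent.Work.MP_689d9c_gt
end

-- merged part: Pool.Agent.Work.MP_689d9c_gt.S.Zig
section
/-! One zigzag along the vertical fibres of the Heisenberg group. -/

set_option autoImplicit false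

namespace Pool.Agent.Work.MP_689d9c_gt

open Real

lemma Good.comp {f : Hs → ℝ} (hf : Good f) {g : ℝ → ℝ} {B : ℝ} (h1 : ∀ z, |g z| ≤ B)
    (h2 : ∀ z z', |g z' - g z| ≤ |z' - z|) : Good fun p => g (f p) := by
  obtain ⟨A, hA, -, hA2⟩ := hf
  have hB : 0 ≤ B := (abs_nonneg _).trans (h1 0)
  refine ⟨A + B, by positivity, fun p => (h1 _).trans (by linarith), fun p q => ?_⟩
  nlinarith only [hB, h2 (f p) (f q), hA2 p q, mul_nonneg hB (gN_nonneg p q)]

lemma Good.cl {c u v : Hs → ℝ} (hc : Good c) (hu : Good u) (hv : Good v) (h0 : ∀ p, 0 ≤ c p) :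
    Good fun p => cl (c p) (u p) (v p) := by
  obtain ⟨A, hA, hA1, hA2⟩ := hc
  obtain ⟨B, hB, hB1, hB2⟩ := hu
  obtain ⟨C, hC, -, hC2⟩ := hv
  refine ⟨A + B + C, by positivity, fun p => ?_, fun p q => cl_lip ?_ ?_⟩
  · have h1 := abs_le.1 (cl_abs (h0 p) (u p) (v p))
    have h2 := abs_le.1 (hA1 p)
    have h3 := abs_le.1 (hB1 p)
    rw [abs_le]
    constructor <;> linarith
  · nlinarith only [hC, hA2 p q, hB2 p q, mul_nonneg hC (gN_nonneg p q)]
  · nlinarith only [hA, hB, hC2 p q, mul_nonneg hA (gN_nonneg p q), mul_nonneg hB (gN_nonneg p q)]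

lemma Good.avg {f : Hs → ℝ} (hf : Good f) : Good fun p => ∫ r in (0 : ℝ)..2 * π, f (vt p r) := by
  have hc := hf.continuous_vt
  obtain ⟨A, hA, hA1, hA2⟩ := hf
  refine ⟨A * |2 * π - 0|, by positivity, fun p =>
    intervalIntegral.norm_integral_le_of_norm_le_const (f := fun r => f (vt p r)) fun r _ => hA1 _,
    fun p q => ?_⟩
  rw [← intervalIntegral.integral_sub ((hc q).intervalIntegrable _ _) ((hc p).intervalIntegrable _ _),
    mul_right_comm]
  refine intervalIntegral.norm_integral_le_of_norm_le_const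
    (f := fun r => f (vt q r) - f (vt p r)) fun r _ => ?_
  rw [← gN_vt_vt p q r]
  exact hA2 _ _

/-- The triangle wave cut off to the strips of parity `a`. -/
noncomputable def uu (a : ℤ) (p : Hs) : ℝ := ch a p * TT (th a p)

/-- The signal. -/
noncomputable def GG (p : Hs) : ℝ := cl (4 * (1 - ch 0 p)) (uu 0 p) (uu 1 p)

lemma ch_mem (a : ℤ) (p : Hs) : 0 ≤ ch a p ∧ ch a p ≤ 1 := ⟨chi_nonneg _, chi_le_one _⟩

lemma good_GG : Good GG := by
  have h1 : Good (ch 0) := by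
    simpa using good_strip 0 (φ := fun _ => 1) (l := 0) le_rfl (by simp) (by simp)
  exact Good.cl ((Good.const 4).mul ((Good.const 1).sub h1)) (good_strip 0 zero_le_one TT_abs TT_lip)
    (good_strip 1 zero_le_one TT_abs TT_lip) fun p => by linarith [ch_mem 0 p]

lemma GG_pi (p : Hs) (r : ℝ) : GG (vt p (r + π)) = -GG (vt p r) := by
  simp only [GG, uu, ch_vt, th_vt, ← add_assoc, TT_pi, mul_neg]
  exact cl_neg (by linarith [ch_mem 0 p]) _ _

lemma GG_lip (p : Hs) (s s' : ℝ) : |GG (vt p s') - GG (vt p s)| ≤ |s' - s| := by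
  have k : ∀ a, |uu a (vt p s') - uu a (vt p s)| ≤ |s' - s| := fun a => by
    have := TT_lip (th a p + s) (th a p + s')
    rw [add_sub_add_left_eq_sub, one_mul] at this
    rw [uu, uu, ch_vt, ch_vt, th_vt, th_vt, ← mul_sub, abs_mul, abs_of_nonneg (ch_mem a p).1]
    exact (mul_le_of_le_one_left (abs_nonneg _) (ch_mem a p).2).trans this
  exact cl_lip (by simpa [ch_vt] using k 0) (k 1)

lemma GG_three (p : Hs) : ∃ a b θ θ' c : ℝ, 1 / 2 ≤ a ∧ 1 / 2 ≤ b ∧ ∀ t,
    GG (vt p t) = a * TT (θ + t) + -c ∨ GG (vt p t) = b * TT (θ' + t) + 0 ∨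
      GG (vt p t) = a * TT (θ + t) + c := by
  simp only [GG, uu, ch_vt, th_vt]
  rcases ctr_cover p.2.1 with h | h
  · have h1 : ch 0 p = 1 := chi_eq_one h
    refine ⟨1, 1, th 0 p, th 0 p, 0, by norm_num, by norm_num, fun t => Or.inr (Or.inr ?_)⟩
    simp [h1, cl]
  have h1 : ch 1 p = 1 := chi_eq_one h
  rcases le_total (1 / 2) (ch 0 p) with h2 | h2
  · refine ⟨ch 0 p, 1, th 0 p, th 1 p, 4 * (1 - ch 0 p), h2, by norm_num, fun t => ?_⟩
    rw [cl, h1, add_zero, ← sub_eq_add_neg]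
    rcases max_choice (ch 0 p * TT (th 0 p + t) - 4 * (1 - ch 0 p)) (min (1 * TT (th 1 p + t))
      (ch 0 p * TT (th 0 p + t) + 4 * (1 - ch 0 p))) with h3 | h3
    · exact Or.inl h3
    · rw [h3]
      exact Or.inr (min_choice _ _)
  · refine ⟨1, 1, 0, th 1 p, 0, by norm_num, by norm_num, fun t => Or.inr (Or.inl ?_)⟩
    have h3 := abs_le.1 (TT_abs (th 0 p + t))
    have h4 := abs_le.1 (TT_abs (th 1 p + t))
    have h5 := ch_mem 0 p
    rw [cl, h1, add_zero, min_eq_left (by nlinarith only [h2, h3, h4]), max_eq_right (by nlinarith only [h2, h3, h4])]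

lemma int_GG {K : ℝ} (hK : 0 < K) (p : Hs) :
    ∫ t in (0 : ℝ)..2 * π, cos (ang (K * GG (vt p t))) ≤ 6 * (π ^ 2 / K) := by
  obtain ⟨a, b, θ, θ', c, ha, hb, h⟩ := GG_three p
  have hc : ∀ a θ c, IntervalIntegrable (fun t => cos (ang (K * (a * TT (θ + t) + c))))
      MeasureTheory.volume 0 (2 * π) := fun a θ c => (continuous_cos.comp (continuous_ang.comp
        (by have := continuous_TT; fun_prop))).intervalIntegrable _ _
  refine (intervalIntegral.integral_mono_on (by positivity) ((continuous_cos.comp (continuous_ang.comp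
    ((good_GG.continuous_vt p).const_mul K))).intervalIntegrable _ _)
    (((hc a θ (-c)).add (hc b θ' 0)).add (hc a θ c)) fun t _ => ?_).trans ?_
  · have h1 := cos_ang_nonneg (K * (a * TT (θ + t) + -c))
    have h2 := cos_ang_nonneg (K * (b * TT (θ' + t) + 0))
    have h3 := cos_ang_nonneg (K * (a * TT (θ + t) + c))
    simp only [Function.comp_apply]
    rcases h t with h | h | h <;> rw [h] <;> linarith only [h2, h3, h1]
  · rw [intervalIntegral.integral_add ((hc a θ (-c)).add (hc b θ' 0)) (hc a θ c),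
      intervalIntegral.integral_add (hc a θ (-c)) (hc b θ' 0)]
    linarith only [hK, ha, hb, int_cos_ang hK ha θ (-c), int_cos_ang hK hb θ' 0, int_cos_ang hK ha θ c]

theorem exists_zig {m : ℝ} (hm : 0 < m) : ∃ ζ1 ζ2 φ : Hs → ℝ, Good ζ1 ∧ Good ζ2 ∧ Good φ ∧
    (∀ p, |ζ1 p| ≤ 13) ∧ (∀ p, |ζ2 p| ≤ 7 * m) ∧
    ∀ p t, Rel m 1 t (t + (ζ1 (vt p t) - ζ1 p)) (ζ2 (vt p t) - ζ2 p) (φ p) (φ (vt p t)) := by
  obtain ⟨φ, hφ⟩ : ∃ φ : Hs → ℝ, φ = fun p => ang (10 * m * GG p) := ⟨_, rfl⟩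
  have g0 : Good φ := hφ ▸ ((Good.const _).mul good_GG).comp ang_abs ang_lip
  have g1 : Good fun p => m * cos (φ p) :=
    (Good.const m).mul (g0.comp abs_cos_le_one fun z z' => abs_cos_sub_cos_le _ _)
  have g2 : Good fun p => m * sin (φ p) :=
    (Good.const m).mul (g0.comp abs_sin_le_one fun z z' => abs_sin_sub_sin_le _ _)
  have h1 : ∀ p r, φ (vt p (r + π)) = -φ (vt p r) := fun p r => by
    simp only [hφ, GG_pi, mul_neg, ang_neg]
  have h2 : ∀ p r, φ (vt p (r + 2 * π)) = φ (vt p r) := fun p r => by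
    rw [two_mul, ← add_assoc, h1, h1, neg_neg]
  have h3 : ∀ p, |φ p| ≤ π / 2 := fun p => hφ ▸ ang_abs _
  obtain ⟨M, hM⟩ : ∃ M : Hs → ℝ, M = fun p => 1 / (2 * π) * ∫ r in (0 : ℝ)..2 * π, m * cos (φ (vt p r)) :=
    ⟨_, rfl⟩
  have g3 : Good M := hM ▸ (Good.const _).mul g1.avg
  have m0 : ∀ p, ∫ r in (0 : ℝ)..2 * π, m * cos (φ (vt p r)) = 2 * π * M p := fun p => by
    rw [hM]
    field_simp
  have c0 : ∀ p, 0 ≤ m * cos (φ p) := fun p => mul_nonneg hm.le (cos_nonneg_of_mem_Icc (abs_le.1 (h3 p)))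
  have m1 : ∀ p, 0 ≤ M p := fun p => hM ▸ mul_nonneg (by positivity)
    (intervalIntegral.integral_nonneg (by positivity) fun r _ => c0 _)
  have m2 : ∀ p, M p ≤ 1 := fun p => by
    have a1 := mul_le_mul_of_nonneg_left (int_GG (K := 10 * m) (by positivity) p) hm.le
    have a2 := m0 p
    rw [intervalIntegral.integral_const_mul, hφ] at a2
    rw [a2, show m * (6 * (π ^ 2 / (10 * m))) = 2 * π * (3 * π / 10) by field_simp; ring] at a1
    linarith only [a1, le_of_mul_le_mul_left a1 (by positivity), pi_lt_d2]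
  have m3 : ∀ p t, M (vt p t) = M p := fun p t => by
    have hp : Function.Periodic (fun r => m * cos (φ (vt p r))) (2 * π) := fun r => by simp only [h2]
    simp only [hM, vt_vt]
    rw [intervalIntegral.integral_comp_add_left (fun r => m * cos (φ (vt p r))) t, add_zero,
      hp.intervalIntegral_add_eq t 0, zero_add]
  have g4 := g1.sub g3
  refine ⟨_, _, φ, g4.anti, g2.anti, g0, fun p => (norm_anti_le (g4.continuous_vt p)).trans ?_,
    fun p => norm_anti_le_const (g2.continuous_vt p) fun r => ?_, fun p t => ?_⟩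
  · refine (intervalIntegral.integral_mono_on (by positivity)
      ((g4.continuous_vt p).norm.intervalIntegrable _ _)
      (((g1.continuous_vt p).add continuous_const).intervalIntegrable _ _)
      (g := fun r => m * cos (φ (vt p r)) + M p) fun r _ => ?_).trans ?_
    · rw [m3, Real.norm_eq_abs, abs_le]
      constructor <;> linarith only [c0 (vt p r), m1 p]
    · rw [intervalIntegral.integral_add ((g1.continuous_vt p).intervalIntegrable _ _)
        (continuous_const.intervalIntegrable _ _), m0, intervalIntegral.integral_const, smul_eq_mul]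
      nlinarith only [m1 p, m2 p, pi_lt_d2, pi_pos]
  · rw [Real.norm_eq_abs, abs_mul, abs_of_pos hm]
    exact mul_le_of_le_one_right hm.le (abs_sin_le_one _)
  · have a1 := anti_shift (g4.continuous_vt p) (fun r => by simp only [h2, m3]) (by
      simp only [m3]
      rw [intervalIntegral.integral_sub ((g1.continuous_vt p).intervalIntegrable _ _)
        (continuous_const.intervalIntegrable _ _), m0, intervalIntegral.integral_const, smul_eq_mul]
      ring) t
    have a2 := anti_shift (g2.continuous_vt p) (fun r => by simp only [h2])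
      (integral_zero_of_antiperiodic (g2.continuous_vt p) fun r => by rw [h1, sin_neg, mul_neg]) t
    have a3 := rel_of_angle (φ := fun r => φ (vt p r)) hm (fun r => h3 _) (g0.continuous_vt p)
      (fun s s' => by
        refine hφ ▸ (ang_lip _ _).trans ?_
        rw [← mul_sub, abs_mul, abs_of_pos (by positivity)]
        exact mul_le_mul_of_nonneg_left (GG_lip p s s') (by positivity)) (m1 p) (m2 p) t
    simp only [vt_vt]
    rw [a1, a2]
    simpa only [m3, vt_zero] using a3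

end Pool.Agent.Work.MP_689d9c_gt
end
end

-- merged part: Pool.Agent.Work.MP_689d9c_gt.S.Base
section
/-! The pattern of one zigzag, and of several successive zigzags in the same direction. -/

set_option autoImplicit false

namespace Pool.Agent.Work.MP_689d9c_gt

open Real
open scoped RealInnerProductSpace

variable {X V : Type} [NormedAddCommGroup V] [InnerProductSpace ℝ V]

/-- The rank one map `v ↦ ⟪a, v⟫ b`. -/
noncomputable def rk (a b : V) : V →L[ℝ] V := (innerSL ℝ a).smulRight b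

lemma rk_apply (a b v : V) : rk a b v = ⟪a, v⟫ • b := rfl

lemma rk_norm {a b : V} (ha : ‖a‖ = 1) (hb : ‖b‖ = 1) : ‖rk a b‖ = 1 := by
  rw [rk, ContinuousLinearMap.norm_smulRight_apply, innerSL_apply_norm, ha, hb, mul_one]

/-- The rotation by `φ` in the plane of `e` and `w`. -/
noncomputable def Rot (e w : V) (φ : ℝ) : V →L[ℝ] V :=
  ContinuousLinearMap.id ℝ V + (cos φ - 1) • (rk e e + rk w w) + sin φ • (rk e w - rk w e)

lemma Rot_apply (e w v : V) (φ : ℝ) : Rot e w φ v =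
    v + ((cos φ - 1) * ⟪e, v⟫ - sin φ * ⟪w, v⟫) • e + ((cos φ - 1) * ⟪w, v⟫ + sin φ * ⟪e, v⟫) • w := by
  show v + (cos φ - 1) • (⟪e, v⟫ • e + ⟪w, v⟫ • w) + sin φ • (⟪e, v⟫ • w - ⟪w, v⟫ • e) = _
  module

lemma Rot_fix {e w v : V} (h1 : ⟪e, v⟫ = 0) (h2 : ⟪w, v⟫ = 0) (φ : ℝ) : Rot e w φ v = v := by
  simp [Rot_apply, h1, h2]

variable {e w : V}

lemma norm_sq_three (he : ‖e‖ = 1) (hw : ‖w‖ = 1) (hew : ⟪e, w⟫ = 0) (v : V) (a b : ℝ) :
    ‖v + a • e + b • w‖ ^ 2 = ‖v‖ ^ 2 + 2 * a * ⟪e, v⟫ + 2 * b * ⟪w, v⟫ + a ^ 2 + b ^ 2 := by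
  rw [norm_add_sq_real, norm_add_sq_real, norm_smul, norm_smul, he, hw, inner_add_left,
    inner_smul_right, inner_smul_right, inner_smul_right, real_inner_smul_left, hew,
    real_inner_comm e v, real_inner_comm w v, mul_one, mul_one, Real.norm_eq_abs, Real.norm_eq_abs,
    sq_abs, sq_abs]
  ring

lemma Rot_iso (he : ‖e‖ = 1) (hw : ‖w‖ = 1) (hew : ⟪e, w⟫ = 0) (φ : ℝ) (v : V) :
    ‖Rot e w φ v‖ = ‖v‖ := by
  rw [← sq_eq_sq₀ (norm_nonneg _) (norm_nonneg _), Rot_apply, norm_sq_three he hw hew]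
  linear_combination (⟪e, v⟫ ^ 2 + ⟪w, v⟫ ^ 2) * sin_sq_add_cos_sq φ

lemma Rot_lip (he : ‖e‖ = 1) (hw : ‖w‖ = 1) (φ ψ : ℝ) : ‖Rot e w ψ - Rot e w φ‖ ≤ 4 * |ψ - φ| := by
  have e1 : Rot e w ψ - Rot e w φ =
      (cos ψ - cos φ) • (rk e e + rk w w) + (sin ψ - sin φ) • (rk e w - rk w e) := by
    simp only [Rot]
    module
  have h1 := norm_add_le (rk e e) (rk w w)
  have h2 := norm_sub_le (rk e w) (rk w e)
  rw [rk_norm he he, rk_norm hw hw] at h1
  rw [rk_norm he hw, rk_norm hw he] at h2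
  rw [e1]
  refine (norm_add_le _ _).trans ?_
  rw [norm_smul, norm_smul, Real.norm_eq_abs, Real.norm_eq_abs]
  linarith only [h1, h2, mul_le_mul (abs_cos_sub_cos_le ψ φ) h1 (norm_nonneg _) (abs_nonneg _),
    mul_le_mul (abs_sin_sub_sin_le ψ φ) h2 (norm_nonneg _) (abs_nonneg _)]

/-- A zigzag of stretch `m` at scale `α` for the coordinate `τ`, with transversal size `N`. -/
structure Zig (τ N : X → X → ℝ) (m η α : ℝ) (ζ1 ζ2 φ : X → ℝ) : Prop where
  b1 : ∀ p, |ζ1 p| ≤ 13 * α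
  b2 : ∀ p, |ζ2 p| ≤ 7 * m * α
  rel : ∀ p q, ∃ z1 z2 ψ : ℝ, |ζ1 q - z1| ≤ η * N p q ∧ |ζ2 q - z2| ≤ η * N p q ∧
    α * |φ q - ψ| ≤ N p q ∧ Rel m α (τ p q) (τ p q + (z1 - ζ1 p)) (z2 - ζ2 p) (φ p) ψ

theorem pat_zig (he : ‖e‖ = 1) (hw : ‖w‖ = 1) (hew : ⟪e, w⟫ = 0) {τ : X → X → ℝ} {P : X → X → V}
    (h1 : ∀ p q, ⟪e, P p q⟫ = 0) (h2 : ∀ p q, ⟪w, P p q⟫ = 0) {m η α : ℝ} {ζ1 ζ2 φ : X → ℝ}
    (hz : Zig τ (fun p q => ‖P p q‖) m η α ζ1 ζ2 φ) (hα : 0 < α) (hη : 0 < η) (hη1 : η ≤ 1 / 5)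
    (hm : 1 ≤ m * η) :
    Pat (fun p q => P p q + τ p q • e) (fun p q => P p q + (m * τ p q) • e) (4 * η) (1 / 2000)
      (1 / (2 * (η * α / 20))) (η * α / 20) (fun p => ζ1 p • e + ζ2 p • w) fun p => Rot e w (φ p) := by
  have hm1 : 1 ≤ m := by nlinarith only [hη1, hm, hη]
  have n3 : ∀ p q (a b : ℝ), ‖P p q + a • e + b • w‖ ^ 2 = ‖P p q‖ ^ 2 + a ^ 2 + b ^ 2 := fun p q a b => by
    rw [norm_sq_three he hw hew, h1, h2]
    ring
  have n2 : ∀ p q (a : ℝ), ‖P p q + a • e‖ ^ 2 = ‖P p q‖ ^ 2 + a ^ 2 := fun p q a => by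
    simpa using n3 p q a 0
  have l1 : ∀ p q (a : ℝ), ‖P p q‖ ≤ ‖P p q + a • e‖ := fun p q a =>
    le_of_sq_le_sq (by rw [n2]; nlinarith only [sq_nonneg a]) (norm_nonneg _)
  have l2 : ∀ p q, m * |τ p q| ≤ ‖P p q + (m * τ p q) • e‖ := fun p q =>
    le_of_sq_le_sq (by rw [n2, mul_pow, mul_pow, sq_abs]; nlinarith only [sq_nonneg ‖P p q‖]) (norm_nonneg _)
  have l3 : ∀ p q (a : ℝ), ‖P p q + a • e‖ ≤ ‖P p q‖ + |a| := fun p q a =>
    (norm_add_le _ _).trans_eq (by rw [norm_smul, he, mul_one, Real.norm_eq_abs])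
  refine ⟨fun p => Rot_iso he hw hew _, fun p q => le_of_sq_le_sq ?_ (norm_nonneg _), fun p q hq => ?_,
    fun p q hq => ?_, fun p q hq => ?_⟩
  · rw [n2, n2, mul_pow]
    nlinarith only [hη1, hm, hη, hm1, mul_nonneg (sq_nonneg (τ p q)) (by nlinarith only [hη1, hm, hη, hm1] : 0 ≤ m ^ 2 - 1)]
  · obtain ⟨z1, z2, ψ, a1, a2, -, a3⟩ := hz.rel p q
    have e1 : P p q + τ p q • e + (ζ1 q • e + ζ2 q • w - (ζ1 p • e + ζ2 p • w)) -
        Rot e w (φ p) (P p q + (m * τ p q) • e) =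
        ((ζ1 q - z1) + (τ p q + (z1 - ζ1 p) - m * τ p q * cos (φ p))) • e +
          ((ζ2 q - z2) + (z2 - ζ2 p - m * τ p q * sin (φ p))) • w := by
      rw [map_add, map_smul, Rot_fix (h1 p q) (h2 p q), Rot_apply, real_inner_self_eq_norm_sq, he,
        real_inner_comm, hew]
      module
    rw [e1]
    refine (norm_add_le _ _).trans ?_
    rw [norm_smul, norm_smul, he, hw, mul_one, mul_one, Real.norm_eq_abs, Real.norm_eq_abs]
    refine (add_le_add (abs_add_le _ _) (abs_add_le _ _)).trans ?_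
    have b1 := a3.h1
    have b2 := a3.h2
    have b3 := l1 p q (m * τ p q)
    have b4 := l2 p q
    have b5 : 10 * m ^ 2 * τ p q ^ 2 = 10 * ((m * |τ p q|) * (m * |τ p q|)) := by
      rw [← sq_abs (τ p q)]
      ring
    generalize ‖P p q + (m * τ p q) • e‖ = S at hq b3 b4 ⊢
    have b6 := mul_le_mul (b4.trans hq) b4 (by positivity) (by positivity)
    have b7 : |τ p q| ≤ η * S := by nlinarith only [hη, b4, hη1, hm, abs_nonneg (τ p q)]
    have b8 := mul_le_mul_of_nonneg_left b3 hη.le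
    have b9 : α * (|τ p q + (z1 - ζ1 p) - m * τ p q * cos (φ p)| +
        |z2 - ζ2 p - m * τ p q * sin (φ p)|) ≤ α * (2 * (η * S)) := by nlinarith only [b1, b2, b5, b6, hα, b7]
    linarith only [a1, a2, b8, b9, hα, le_of_mul_le_mul_left b9 hα]
  · obtain ⟨z1, z2, ψ, -, -, a2, a3⟩ := hz.rel p q
    refine (Rot_lip he hw _ _).trans ?_
    have b1 := abs_sub_le (φ q) ψ (φ p)
    have b2 := a3.h3
    have b3 := l1 p q (m * τ p q)
    have b4 := l2 p q
    have b5 := norm_nonneg (P p q + (m * τ p q) • e)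
    generalize ‖P p q + (m * τ p q) • e‖ = S at hq b3 b4 b5 ⊢
    have b6 : α * |φ q - φ p| ≤ 11 * S := by nlinarith only [a2, b2, b3, b4, hα, b1]
    rw [one_div_mul_eq_div, le_div_iff₀ (by positivity)]
    nlinarith only [b5, b6, hη, hη1, mul_le_mul_of_nonneg_left b6 hη.le]
  · obtain ⟨z1, z2, ψ, a1, a2, -, a3⟩ := hz.rel p q
    have e1 : P p q + τ p q • e + (ζ1 q • e + ζ2 q • w - (ζ1 p • e + ζ2 p • w)) =
        P p q + (τ p q + (ζ1 q - ζ1 p)) • e + (ζ2 q - ζ2 p) • w := by module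
    have b0 := n3 p q (τ p q + (ζ1 q - ζ1 p)) (ζ2 q - ζ2 p)
    rw [e1]
    have b5 := norm_nonneg (P p q + (τ p q + (ζ1 q - ζ1 p)) • e + (ζ2 q - ζ2 p) • w)
    generalize ‖P p q + (τ p q + (ζ1 q - ζ1 p)) • e + (ζ2 q - ζ2 p) • w‖ = S at b0 b5 ⊢
    have s1 := sq_nonneg ‖P p q‖
    have s2 := sq_nonneg (τ p q + (ζ1 q - ζ1 p))
    have s3 := sq_nonneg (ζ2 q - ζ2 p)
    have c1 : ‖P p q‖ ≤ S := le_of_sq_le_sq (by linarith only [b0, s2, s3]) b5
    have c2 : |τ p q + (ζ1 q - ζ1 p)| ≤ S := le_of_sq_le_sq (by rw [sq_abs]; linarith only [b0, s1, s3]) b5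
    have c3 : |ζ2 q - ζ2 p| ≤ S := le_of_sq_le_sq (by rw [sq_abs]; linarith only [b0, s1, s2]) b5
    have c4 : η * ‖P p q‖ ≤ S / 5 := by nlinarith only [hη, c1, hη1, b5, norm_nonneg (P p q)]
    have c5 := abs_sub (τ p q + (ζ1 q - ζ1 p)) (ζ1 q - z1)
    have c6 := abs_sub (ζ2 q - ζ2 p) (ζ2 q - z2)
    rw [show τ p q + (ζ1 q - ζ1 p) - (ζ1 q - z1) = τ p q + (z1 - ζ1 p) by ring] at c5
    rw [show ζ2 q - ζ2 p - (ζ2 q - z2) = z2 - ζ2 p by ring] at c6
    have c7 := a3.h4.trans (by linarith only [a1, a2, b5, c2, c3, c4, c5, c6] : _ ≤ 5 * S)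
    have c8 := l3 p q (τ p q)
    have c9 := hq.trans (l3 p q _)
    rw [abs_mul, abs_of_pos (by linarith only [hη, hη1, hm1])] at c9
    rcases min_le_iff.1 c7 with h | h
    · clear * - η α V P p q τ e S m c1 c8 c9 h hη hη1 hm hα b5
      nlinarith only [c1, c8, c9, h, hα, hη, hη1, b5, hm, abs_nonneg (τ p q)]
    · have d1 := abs_sub (τ p q + (ζ1 q - ζ1 p)) (ζ1 q - ζ1 p)
      rw [add_sub_cancel_right] at d1
      clear * - η α V P p q τ e S ζ1 hα c1 c2 c8 h d1 X m ζ2 φ hz hη1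
      nlinarith only [hα, c1, c2, c8, h, d1, hη1, abs_sub (ζ1 q) (ζ1 p), hz.b1 p, hz.b1 q]

theorem Pat.inner {L L' : X → X → V} {η γ κ ρ : ℝ} {D : X → V} {R : X → V →L[ℝ] V}
    (h : Pat L L' η γ κ ρ D R) (p : X) (u v : V) : ⟪R p u, R p v⟫ = ⟪u, v⟫ :=
  LinearIsometry.inner_map_map ⟨(R p).toLinearMap, h.iso p⟩ u v

theorem pat_fold_aux (he : ‖e‖ = 1) {c : ℕ} {w : ℕ → V} (hw : ∀ l < c, ‖w l‖ = 1)
    (hew : ∀ l < c, ⟪e, w l⟫ = 0) (hww : ∀ l < c, ∀ j < l, ⟪w j, w l⟫ = 0)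
    {τ : X → X → ℝ} {P : X → X → V} (h1 : ∀ p q, ⟪e, P p q⟫ = 0)
    (h2 : ∀ l < c, ∀ p q, ⟪w l, P p q⟫ = 0) {m η ρ : ℝ} (hρ : 0 < ρ) (hη : 0 < η)
    (hη1 : (5 * c + 1) * η ≤ 1 / 4000) (hm : 1 ≤ m * η)
    (hz : ∀ j < c, ∃ ζ1 ζ2 φ : X → ℝ, Zig (fun p q => m ^ j * τ p q) (fun p q => ‖P p q‖) m η
      (η * ((η ^ 2 / 260) ^ j * ρ) / 13) ζ1 ζ2 φ) (j : ℕ) (hj : j ≤ c) :
    ∃ (D : X → V) (R : X → V →L[ℝ] V), Pat (fun p q => P p q + τ p q • e)
      (fun p q => P p q + (m ^ j * τ p q) • e) (5 * j * η) (1 / 4000) (1 / ((η ^ 2 / 260) ^ j * ρ))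
      ((η ^ 2 / 260) ^ j * ρ) D R ∧ (∀ p, ‖D p‖ ≤ j * (m * ρ)) ∧
      ∀ l < c, j ≤ l → ∀ p, R p (w l) = w l ∧ ⟪w l, D p⟫ = 0 := by
  have hη2 : η ≤ 1 / 4000 := by nlinarith only [hη1, hη, mul_nonneg (Nat.cast_nonneg c) hη.le]
  have hm1 : 1 ≤ m := by nlinarith only [hm, hη2, hη]
  have hθ : η ^ 2 / 260 ≤ 1 / 2 := by nlinarith only [hη, hη2, hη1]
  induction j with
  | zero =>
    refine ⟨0, fun _ => ContinuousLinearMap.id ℝ V, ?_, by simp, by simp⟩
    simp only [pow_zero, one_mul]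
    exact (Pat.refl _ ρ).weak (by simp) (by norm_num) (by positivity) le_rfl (by norm_num) (by norm_num)
  | succ j ih =>
    obtain ⟨D, R, p1, p2, p3⟩ := ih (by omega)
    obtain ⟨ζ1, ζ2, φ, hz1⟩ := hz j hj
    have hr : (η ^ 2 / 260) ^ j * ρ ≤ ρ :=
      mul_le_of_le_one_left hρ.le (pow_le_one₀ (by positivity) (by linarith only [hη, hη2, hθ]))
    have hr0 : 0 < (η ^ 2 / 260) ^ j * ρ := by positivity
    have hjc : (j : ℝ) + 1 ≤ c := by exact_mod_cast hj
    rw [pow_succ' m, pow_succ', mul_assoc (η ^ 2 / 260)]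
    generalize (η ^ 2 / 260) ^ j * ρ = r at p1 hz1 hr hr0 ⊢
    have p4 := pat_zig he (hw j hj) (hew j hj) h1 (h2 j hj) hz1 (by positivity) hη (by linarith only [hη, hη2]) hm
    rw [show η * (η * r / 13) / 20 = η ^ 2 / 260 * r by ring] at p4
    have n1 : ∀ p, ‖ζ1 p • e‖ ≤ η * r := fun p => by
      rw [norm_smul, he, mul_one, Real.norm_eq_abs]
      linarith only [hz1.b1 p]
    have n2 : ∀ p, ‖ζ2 p • w j‖ ≤ m * (η * r) := fun p => by
      rw [norm_smul, hw j hj, mul_one, Real.norm_eq_abs]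
      nlinarith only [hη, hr0, hη2, hm1, hz1.b2 p, mul_pos (mul_pos hη hr0) (by linarith only [hη, hη2, hm1] : 0 < m)]
    have e1 : 1 / r * (η * r) = η := by field_simp
    have p5 := p1.comp p4 (fun p => ζ2 p • w j) (A := η * r) (d := 1) (γ'' := 1 / 4000)
      (fun p => by rw [add_sub_cancel_right]; exact n1 p)
      (fun p q => by rw [map_smul, (p3 j hj le_rfl p).1])
      (fun p q => le_of_sq_le_sq (by
        rw [← sub_smul, norm_add_sq_real _ (_ • _), inner_smul_right, real_inner_comm, inner_add_right,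
          inner_add_right, inner_sub_right, inner_smul_right, h2 j hj, (p3 j hj le_rfl p).2,
          (p3 j hj le_rfl q).2, real_inner_comm, hew j hj]
        simp) (norm_nonneg _))
      (fun p q => by rw [one_mul]; exact p4.mono p q) (by positivity) (by positivity)
      (by nlinarith only [hr0, hη, hη2, hθ]) (by nlinarith only [hr0, hη, hη2, hθ]) (by norm_num) le_rfl (by rw [e1]; nlinarith only [hη, hη1, hη2, hjc])
    refine ⟨fun p => D p + R p (ζ1 p • e + ζ2 p • w j), fun p => (R p).comp (Rot e (w j) (φ p)), ?_,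
      fun p => ?_, fun l hl hjl p => ?_⟩
    · simp only [mul_assoc m]
      refine p5.weak (by rw [e1]; push_cast; linarith only []) le_rfl ?_ le_rfl (by rw [e1]; nlinarith only [hη, hη1, hη2, hjc])
        (by norm_num)
      have t0 : 0 < η ^ 2 / 260 := by positivity
      generalize η ^ 2 / 260 = θ at hθ t0
      have e2 : 1 / r + 1 / (2 * (θ * r)) = (θ + 1 / 2) / (θ * r) := by field_simp
      rw [e2]
      exact div_le_div_of_nonneg_right (by linarith only [hθ]) (by positivity)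
    · refine (norm_add_le _ _).trans ?_
      rw [p1.iso]
      push_cast
      have t1 : η * r ≤ 1 / 4000 * ρ := mul_le_mul hη2 hr hr0.le (by norm_num)
      clear * - V D p ζ1 e ζ2 w j m ρ η r t1 hη hm hρ hη2 p2 n1 n2
      nlinarith only [t1, hρ, hη, hm, hη2, norm_add_le (ζ1 p • e) (ζ2 p • w j), p2 p, n1 p, n2 p]
    · obtain ⟨t1, t2⟩ := p3 l hl (by omega) p
      refine ⟨by rw [ContinuousLinearMap.comp_apply, Rot_fix (hew l hl) (hww l hl j hjl), t1], ?_⟩
      rw [inner_add_right, t2, ← t1, p1.inner, inner_add_right, inner_smul_right, inner_smul_right,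
        real_inner_comm, hew l hl, real_inner_comm, hww l hl j hjl]
      simp

end Pool.Agent.Work.MP_689d9c_gt
end

-- merged part: Pool.Agent.Work.MP_689d9c_gt.S.Cycle
section
/-! One cycle: all normals are used in the three directions of the Heisenberg group. -/

set_option autoImplicit false

namespace Pool.Agent.Work.MP_689d9c_gt

open Real Filter
open scoped RealInnerProductSpace

variable {X V : Type} [NormedAddCommGroup V] [InnerProductSpace ℝ V]

theorem zig_hor {m η α : ℝ} (hm : 0 < m) (hη : 0 ≤ η) (hα : 0 < α) (u : X → ℝ) {τ N : X → X → ℝ}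
    (hτ : ∀ p q, τ p q = u q - u p) (hN : ∀ p q, 0 ≤ N p q) :
    ∃ ζ1 ζ2 φ : X → ℝ, Zig τ N m η α ζ1 ζ2 φ := by
  obtain ⟨ζ1, ζ2, φ, -, -, -, h1, h2, h3⟩ := exists_zig hm
  refine ⟨fun p => α * ζ1 (vt 0 (u p / α)), fun p => α * ζ2 (vt 0 (u p / α)),
    fun p => φ (vt 0 (u p / α)), fun p => ?_, fun p => ?_, fun p q => ⟨_, _, _,
      by rw [sub_self, abs_zero]; exact mul_nonneg hη (hN p q),
      by rw [sub_self, abs_zero]; exact mul_nonneg hη (hN p q),
      by rw [sub_self, abs_zero, mul_zero]; exact hN p q, ?_⟩⟩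
  · rw [abs_mul, abs_of_pos hα, mul_comm]
    exact mul_le_mul_of_nonneg_right (h1 _) hα.le
  · rw [abs_mul, abs_of_pos hα, mul_comm]
    exact mul_le_mul_of_nonneg_right (h2 _) hα.le
  · have := (h3 (vt 0 (u p / α)) (τ p q / α)).scale hα
    rwa [vt_vt, ← add_div, mul_add, mul_div_cancel₀ _ hα.ne', mul_sub, mul_sub,
      show u p + τ p q = u q by rw [hτ]; ring] at this

theorem zig_vert {m η α a : ℝ} (hm : 0 < m) (hη : 0 < η) (hα : 0 < α) (ha : 0 < a) :
    ∃ C : ℝ, ∀ N : Hs → Hs → ℝ, (∀ p q, C * (|q.1 - p.1| + |q.2.1 - p.2.1|) ≤ N p q) →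
      ∃ ζ1 ζ2 φ : Hs → ℝ, Zig (fun p q => a * om p q) N m η α ζ1 ζ2 φ := by
  obtain ⟨ζ1, ζ2, φ, ⟨A1, a1, -, g1⟩, ⟨A2, a2, -, g2⟩, ⟨A3, a3, -, g3⟩, h1, h2, h3⟩ := exists_zig hm
  obtain ⟨r, r0, hr⟩ : ∃ r, 0 ≤ r ∧ α * r ^ 2 = a :=
    ⟨√(a / α), sqrt_nonneg _, by rw [sq_sqrt (by positivity), mul_div_cancel₀ _ hα.ne']⟩
  refine ⟨α * r * (A1 / η + A2 / η + A3), fun N hN => ⟨fun p => α * ζ1 (dil r p),
    fun p => α * ζ2 (dil r p), fun p => φ (dil r p), fun p => ?_, fun p => ?_, fun p q => ?_⟩⟩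
  · rw [abs_mul, abs_of_pos hα, mul_comm]
    exact mul_le_mul_of_nonneg_right (h1 _) hα.le
  · rw [abs_mul, abs_of_pos hα, mul_comm]
    exact mul_le_mul_of_nonneg_right (h2 _) hα.le
  have e : gN (vt (dil r p) (om (dil r p) (dil r q))) (dil r q) =
      r * (|q.1 - p.1| + |q.2.1 - p.2.1|) := by
    rw [gN, om_vt_om, abs_zero, add_zero]
    simp only [vt, dil, ← mul_sub, abs_mul, abs_of_nonneg r0, mul_add]
  have k : ∀ (f : Hs → ℝ) (A B : ℝ), A ≤ A1 / η + A2 / η + A3 → 0 ≤ B →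
      (∀ p q, |f q - f p| ≤ B * A * gN p q) →
      α * |f (dil r q) - f (vt (dil r p) (om (dil r p) (dil r q)))| ≤ B * N p q := by
    clear * - A1 η A2 A3 α r q p hα N e r0 hN
    intro f A B hA hB hf
    have t1 := mul_le_mul_of_nonneg_left (hf (vt (dil r p) (om (dil r p) (dil r q))) (dil r q)) hα.le
    rw [e] at t1
    refine t1.trans (le_trans ?_ (mul_le_mul_of_nonneg_left (hN p q) hB))
    have t2 := mul_le_mul_of_nonneg_left hA
      (by positivity : 0 ≤ B * (α * r * (|q.1 - p.1| + |q.2.1 - p.2.1|)))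
    linarith only [t2]
  have b1 : 0 ≤ A1 / η := by positivity
  have b2 : 0 ≤ A2 / η := by positivity
  refine ⟨α * ζ1 (vt (dil r p) (om (dil r p) (dil r q))), α * ζ2 (vt (dil r p) (om (dil r p) (dil r q))),
    φ (vt (dil r p) (om (dil r p) (dil r q))), ?_, ?_, ?_, ?_⟩
  · rw [← mul_sub, abs_mul, abs_of_pos hα]
    exact k ζ1 (A1 / η) η (by linarith) hη.le (by rwa [mul_div_cancel₀ _ hη.ne'])
  · rw [← mul_sub, abs_mul, abs_of_pos hα]
    exact k ζ2 (A2 / η) η (by linarith) hη.le (by rwa [mul_div_cancel₀ _ hη.ne'])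
  · simpa only [one_mul] using k φ A3 1 (by linarith only [b1, b2]) zero_le_one (by rwa [one_mul])
  · have := (h3 (dil r p) (om (dil r p) (dil r q))).scale hα
    rwa [mul_add, mul_sub, mul_sub, show α * om (dil r p) (dil r q) = a * om p q by
      rw [om_dil, ← mul_assoc, hr]] at this

theorem pat_fold {e : V} (he : ‖e‖ = 1) {c : ℕ} (hc : 0 < c) {w : ℕ → V} (hw : ∀ l < c, ‖w l‖ = 1)
    (hew : ∀ l < c, ⟪e, w l⟫ = 0) (hww : ∀ l < c, ∀ j < l, ⟪w j, w l⟫ = 0)
    {τ : X → X → ℝ} {P L L' : X → X → V} (h1 : ∀ p q, ⟪e, P p q⟫ = 0)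
    (h2 : ∀ l < c, ∀ p q, ⟪w l, P p q⟫ = 0) {m η r k : ℝ} (hr : 0 < r) (hη : 0 < η)
    (hη1 : (5 * c + 1) * η ≤ 1 / 4000) (hm : 1 ≤ m * η) (hk : k = (η ^ 2 / 260) ^ c * η / c)
    (hL : ∀ p q, L p q = P p q + τ p q • e) (hL' : ∀ p q, L' p q = P p q + (m ^ c * τ p q) • e)
    (hz : ∀ j < c, ∃ ζ1 ζ2 φ : X → ℝ, Zig (fun p q => m ^ j * τ p q) (fun p q => ‖P p q‖) m η
      (η * ((η ^ 2 / 260) ^ j * (η * r / (c * m))) / 13) ζ1 ζ2 φ) :
    ∃ (D : X → V) (R : X → V →L[ℝ] V), Pat L L' (5 * c * η) (1 / 4000) (1 / (k * r / m)) (k * r / m) D R ∧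
      ∀ p, ‖D p‖ ≤ η * r := by
  have hm0 : 0 < m := by clear * - m η c hη hη1 hm; nlinarith only [hη, hη1, hm]
  obtain ⟨D, R, p1, p2, -⟩ := pat_fold_aux he hw hew hww h1 h2 (by positivity) hη hη1 hm hz c le_rfl
  obtain rfl : L = fun p q => P p q + τ p q • e := funext₂ hL
  obtain rfl : L' = fun p q => P p q + (m ^ c * τ p q) • e := funext₂ hL'
  refine ⟨D, R, ?_, fun p => (p2 p).trans_eq (by field_simp)⟩
  rwa [show k * r / m = (η ^ 2 / 260) ^ c * (η * r / (c * m)) by rw [hk]; field_simp]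

theorem exists_cycle {c : ℕ} (hc : 0 < c) {b : ℕ → V} (hb1 : ∀ i < c + 3, ‖b i‖ = 1)
    (hb2 : ∀ i < c + 3, ∀ j < c + 3, i ≠ j → ⟪b i, b j⟫ = 0) {η m m' k : ℝ} (hη : 0 < η)
    (hη1 : (30 * c + 18) * η ≤ 1 / 8000) (hm : 1 ≤ m * η) (hm' : 1 ≤ m' * η)
    (hk : k = (η ^ 2 / 260) ^ c * η / c) :
    ∀ᶠ h in atTop, ∃ (D : Hs → V) (R : Hs → V →L[ℝ] V), Pat (LL (b 0) (b 1) (b 2) h h 1)
      (LL (b 0) (b 1) (b 2) (m ^ c * h) (m ^ c * h) (m' ^ c)) ((15 * c + 3) * η) (1 / 8000)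
      (3 / (k ^ 3 / (m ^ 2 * m'))) (k ^ 3 / (m ^ 2 * m')) D R ∧ ∀ p, ‖D p‖ ≤ 3 * η := by
  have hc1 : (1 : ℝ) ≤ c := by exact_mod_cast hc
  have hη2 : η ≤ 1 / 8000 := by clear * - η c hη hη1; nlinarith only [hη, hη1]
  have hη3 : (5 * c + 1) * η ≤ 1 / 4000 := by nlinarith only [hη, hη1, hη2]
  have hm1 : 2 ≤ m := by nlinarith only [hc1, hη, hη1, hm]
  have hm2 : 2 ≤ m' := by nlinarith only [hc1, hη, hη1, hm']
  have hm0 : 0 < m := by linarith only [hη, hη2, hm1]
  have hm0' : 0 < m' := by linarith only [hη, hη2, hm2]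
  have k0 : 0 < k := by rw [hk]; positivity
  have k1 : k ≤ 1 := by
    clear * - k η c hk hc1 hη hη1 hη2
    rw [hk, div_le_one (by linarith only [hη, hc1, hη2])]
    exact (mul_le_one₀ (pow_le_one₀ (by positivity) (by nlinarith only [hη, hη1, hc1])) hη.le (by linarith only [hη, hη2])).trans hc1
  have k2 : ∀ {r m : ℝ}, 0 < r → 2 ≤ m → 0 < k * r / m ∧ k * r / m ≤ r / 2 := fun hr hm =>
    ⟨div_pos (by positivity) (by linarith only [hη, hη2, hm]), div_le_div₀ hr.le (mul_le_of_le_one_left hr.le k1) two_pos hm⟩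
  obtain ⟨a1, a2⟩ := k2 one_pos hm1
  obtain ⟨a3, a4⟩ := k2 a1 hm1
  obtain ⟨a5, a6⟩ := k2 a3 hm2
  have w1 : ∀ l < c, ‖b (l + 3)‖ = 1 := fun l hl => hb1 _ (by omega)
  have w2 : ∀ i < 3, ∀ l < c, ⟪b i, b (l + 3)⟫ = 0 := fun i hi l hl =>
    hb2 _ (by omega) _ (by omega) (by omega)
  have w3 : ∀ l < c, ∀ j < l, ⟪b (j + 3), b (l + 3)⟫ = 0 := fun l hl j hj =>
    hb2 _ (by omega) _ (by omega) (by omega)
  have w4 : ∀ i < c + 3, ∀ j < 3, ∀ l < 3, i ≠ j → i ≠ l → ∀ x y : ℝ, ⟪b i, x • b j + y • b l⟫ = 0 :=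
    fun i hi j hj l hl h1 h2 x y => by
      rw [inner_add_right, inner_smul_right, inner_smul_right, hb2 i hi j (by omega) h1,
        hb2 i hi l (by omega) h2, mul_zero, mul_zero, add_zero]
  have hC := fun j : ℕ => zig_vert (a := m' ^ j)
    (α := η * ((η ^ 2 / 260) ^ j * (η * (k * (k * 1 / m) / m) / (c * m'))) / 13) hm0' hη
    (by positivity) (by positivity)
  choose C hC using hC
  filter_upwards [(eventually_all_finset (Finset.range c)).2 fun j _ => eventually_ge_atTop (2 * C j),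
    eventually_ge_atTop 0] with h hh hh0
  obtain ⟨D1, R1, p1, q1⟩ := pat_fold (hb1 0 (by omega)) hc w1 (w2 0 (by omega)) w3
    (τ := fun p q : Hs => h * (q.1 - p.1))
    (P := fun p q => (h * (q.2.1 - p.2.1)) • b 1 + (1 * om p q) • b 2)
    (L := LL (b 0) (b 1) (b 2) h h 1) (L' := LL (b 0) (b 1) (b 2) (m ^ c * h) h 1)
    (fun p q => w4 0 (by omega) 1 (by omega) 2 (by omega) (by omega) (by omega) _ _)
    (fun l hl p q => w4 _ (by omega) 1 (by omega) 2 (by omega) (by omega) (by omega) _ _)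
    one_pos hη hη3 hm hk (fun p q => by simp only [LL]; module) (fun p q => by simp only [LL]; module)
    fun j _ => zig_hor hm0 hη.le (by positivity) (fun p => m ^ j * (h * p.1)) (fun p q => by ring)
      fun p q => norm_nonneg _
  obtain ⟨D2, R2, p2, q2⟩ := pat_fold (hb1 1 (by omega)) hc w1 (w2 1 (by omega)) w3
    (τ := fun p q : Hs => h * (q.2.1 - p.2.1))
    (P := fun p q => (m ^ c * h * (q.1 - p.1)) • b 0 + (1 * om p q) • b 2)
    (L := LL (b 0) (b 1) (b 2) (m ^ c * h) h 1) (L' := LL (b 0) (b 1) (b 2) (m ^ c * h) (m ^ c * h) 1)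
    (fun p q => w4 1 (by omega) 0 (by omega) 2 (by omega) (by omega) (by omega) _ _)
    (fun l hl p q => w4 _ (by omega) 0 (by omega) 2 (by omega) (by omega) (by omega) _ _)
    a1 hη hη3 hm hk (fun p q => by simp only [LL]; module) (fun p q => by simp only [LL]; module)
    fun j _ => zig_hor hm0 hη.le (by positivity) (fun p => m ^ j * (h * p.2.1)) (fun p q => by ring)
      fun p q => norm_nonneg _
  obtain ⟨D3, R3, p3, q3⟩ := pat_fold (hb1 2 (by omega)) hc w1 (w2 2 (by omega)) w3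
    (τ := om) (P := fun p q => (m ^ c * h * (q.1 - p.1)) • b 0 + (m ^ c * h * (q.2.1 - p.2.1)) • b 1)
    (L := LL (b 0) (b 1) (b 2) (m ^ c * h) (m ^ c * h) 1)
    (L' := LL (b 0) (b 1) (b 2) (m ^ c * h) (m ^ c * h) (m' ^ c))
    (fun p q => w4 2 (by omega) 0 (by omega) 1 (by omega) (by omega) (by omega) _ _)
    (fun l hl p q => w4 _ (by omega) 0 (by omega) 1 (by omega) (by omega) (by omega) _ _)
    a3 hη hη3 hm' hk (fun p q => by simp only [LL, one_mul]) (fun p q => rfl)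
    fun j hj => hC j _ fun p q => by
      clear * - V m c h q p b hb1 hc j hb2 hh0 η hη hη2 hm1 C hh hj
      have t1 := norm_sq_three (hb1 0 (by omega)) (hb1 1 (by omega))
        (hb2 0 (by omega) 1 (by omega) (by omega)) 0 (m ^ c * h * (q.1 - p.1))
        (m ^ c * h * (q.2.1 - p.2.1))
      have t2 : h ≤ m ^ c * h := le_mul_of_one_le_left hh0 (one_le_pow₀ (by linarith only [hη, hη2, hm1]))
      have t3 := hh j (Finset.mem_range.2 hj)
      rw [zero_add, norm_zero, inner_zero_right, inner_zero_right, ← sq_abs (_ * (q.1 - p.1)),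
        ← sq_abs (_ * (q.2.1 - p.2.1)), abs_mul, abs_mul _ (q.2.1 - p.2.1),
        abs_of_nonneg (hh0.trans t2)] at t1
      have t4 := norm_nonneg ((m ^ c * h * (q.1 - p.1)) • b 0 + (m ^ c * h * (q.2.1 - p.2.1)) • b 1)
      generalize ‖(m ^ c * h * (q.1 - p.1)) • b 0 + (m ^ c * h * (q.2.1 - p.2.1)) • b 1‖ = S at t1 t4 ⊢
      have t5 : m ^ c * h * |q.1 - p.1| ≤ S := le_of_sq_le_sq
        (by linarith only [t1, sq_nonneg (m ^ c * h * |q.2.1 - p.2.1|)]) t4
      have t6 : m ^ c * h * |q.2.1 - p.2.1| ≤ S := le_of_sq_le_sq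
        (by linarith only [t1, sq_nonneg (m ^ c * h * |q.1 - p.1|)]) t4
      nlinarith only [t5, t6, hη, hη2, t2, t3, abs_nonneg (q.1 - p.1), abs_nonneg (q.2.1 - p.2.1)]
  rw [show k ^ 3 / (m ^ 2 * m') = k * (k * (k * 1 / m) / m) / m' by field_simp]
  generalize k * 1 / m = r1 at *
  generalize k * r1 / m = r2 at *
  generalize k * r2 / m' = r3 at *
  have e1 : 1 / r1 * (η * r1) = η := by field_simp
  have e2 : 2 / r2 * (η * r2) = 2 * η := by field_simp
  have k3 : ∀ {r r' : ℝ}, 0 < r' → r' ≤ r / 2 → 1 / r ≤ 1 / r' := fun h1 h2 =>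
    one_div_le_one_div_of_le h1 (by linarith only [h1, h2])
  have p4 := (p1.comp0 p2 q2 (d := 1) (γ'' := 1 / 8000) (fun p q => by rw [one_mul]; exact p2.mono p q)
    (by positivity) (by positivity) (by linarith only [a4, a5, a6]) (by nlinarith only [a4, a1, hη, a5, a6, hη1]) (by norm_num) (by norm_num)
    (by rw [e1]; nlinarith only [hη, hη1, hη2])).weak (η' := (10 * c + 1) * η) (κ' := 2 / r2) (by rw [e1]; linarith only []) le_rfl
    (by linarith only [a3, a4, k3 a3 a4, show 2 / r2 = 1 / r2 + 1 / r2 by ring]) le_rfl (by rw [e1]; nlinarith only [hη, hη1, hη2])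
    (by norm_num)
  refine ⟨_, _, (p4.comp0 p3 q3 (d := 1) (γ'' := 1 / 8000)
    (fun p q => by rw [one_mul]; exact p3.mono p q) (by positivity) (by positivity) (by linarith only [a5, a6])
    (by nlinarith only [a6, a3, hη, a5, hη1]) (by norm_num) le_rfl (by rw [e2]; nlinarith only [hη, hη1, hη2])).weak (by rw [e2]; linarith only []) le_rfl
    (by linarith only [a5, a6, k3 a5 a6, show 2 / r2 = 2 * (1 / r2) by ring, show 3 / r3 = 3 * (1 / r3) by ring])
    le_rfl (by rw [e2]; nlinarith only [hη, hη1, hη2]) (by norm_num), fun p => ?_⟩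
  refine (norm_add_le _ _).trans ?_
  rw [p4.iso]
  have t1 := norm_add_le (D1 p) (R1 p (D2 p))
  rw [p1.iso] at t1
  nlinarith only [t1, hc1, hη, hη1, a2, a4, q1 p, q2 p, q3 p]

end Pool.Agent.Work.MP_689d9c_gt
end
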