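import Pool.Agent.Work.MP_689d9c_gt.S.Cycle

-- merged part: Pool.Agent.Work.MP_689d9c_gt.S.Fin
section
/-! From one self-similar pattern to the embedding. -/

set_option autoImplicit false

namespace Pool.Agent.Work.MP_689d9c_gt

open Filter Topology

namespace SF

/-- A homogeneous quasi-distance. -/
noncomputable def DD (p q : Hs) : ℝ := max (max |q.1 - p.1| |q.2.1 - p.2.1|) (√|om p q|)

lemma DD_nonneg (p q : Hs) : 0 ≤ DD p q := (Real.sqrt_nonneg _).trans (le_max_right _ _)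

lemma DD_dil {r : ℝ} (hr : 0 ≤ r) (p q : Hs) : DD (dil r p) (dil r q) = r * DD p q := by
  rw [DD, DD, om_dil, abs_mul, abs_of_nonneg (sq_nonneg r), Real.sqrt_mul (sq_nonneg r),
    Real.sqrt_sq hr, mul_max_of_nonneg _ _ hr, mul_max_of_nonneg _ _ hr]
  simp only [dil, ← mul_sub, abs_mul, abs_of_nonneg hr]

lemma DD_pos {p q : Hs} (h : p ≠ q) : 0 < DD p q := by
  by_contra h0
  have h0 : DD p q ≤ 0 := not_lt.1 h0
  have h1 : |q.1 - p.1| ≤ 0 := ((le_max_left _ _).trans (le_max_left _ _)).trans h0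
  have h2 : |q.2.1 - p.2.1| ≤ 0 := ((le_max_right _ _).trans (le_max_left _ _)).trans h0
  have h3 : √|om p q| ≤ 0 := (le_max_right _ _).trans h0
  have e1 : q.1 = p.1 := sub_eq_zero.1 (abs_nonpos_iff.1 h1)
  have e2 : q.2.1 = p.2.1 := sub_eq_zero.1 (abs_nonpos_iff.1 h2)
  have e3 : om p q = 0 :=
    abs_nonpos_iff.1 (Real.sqrt_eq_zero'.1 (le_antisymm h3 (Real.sqrt_nonneg _)))
  apply h
  rw [om, e1, e2] at e3
  exact Prod.ext e1.symm (Prod.ext e2.symm (by linarith))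

lemma DD_compare (p q : Hs) :
    DD p q ^ 4 ≤ ((q.1 - p.1) ^ 2 + (q.2.1 - p.2.1) ^ 2) ^ 2 + om p q ^ 2 ∧
    ((q.1 - p.1) ^ 2 + (q.2.1 - p.2.1) ^ 2) ^ 2 + om p q ^ 2 ≤ 5 * DD p q ^ 4 := by
  have h1 : |q.1 - p.1| ≤ DD p q := (le_max_left _ _).trans (le_max_left _ _)
  have h2 : |q.2.1 - p.2.1| ≤ DD p q := (le_max_right _ _).trans (le_max_left _ _)
  have h3 : √|om p q| ≤ DD p q := le_max_right _ _
  have e3 : om p q ^ 2 = √|om p q| ^ 4 := by
    rw [show 4 = 2 * 2 by rfl, pow_mul, Real.sq_sqrt (abs_nonneg _), sq_abs]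
  rw [← sq_abs (q.1 - p.1), ← sq_abs (q.2.1 - p.2.1), e3]
  have a0 := abs_nonneg (q.1 - p.1)
  have b0 := abs_nonneg (q.2.1 - p.2.1)
  have c0 := Real.sqrt_nonneg |om p q|
  constructor
  · rw [DD]
    generalize |q.1 - p.1| = a at *
    generalize |q.2.1 - p.2.1| = b at *
    generalize √|om p q| = c at *
    rcases max_choice (max a b) c with h | h
    · rcases max_choice a b with h' | h' <;> rw [h, h'] <;>
        nlinarith only [sq_nonneg (a * b), sq_nonneg (a ^ 2), sq_nonneg (b ^ 2), sq_nonneg (c ^ 2)]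
    · rw [h]; nlinarith only [sq_nonneg (a ^ 2 + b ^ 2)]
  · have t1 := pow_le_pow_left₀ a0 h1 2
    have t2 := pow_le_pow_left₀ b0 h2 2
    have t3 := pow_le_pow_left₀ c0 h3 4
    have t4 := pow_le_pow_left₀ (by positivity) (add_le_add t1 t2) 2
    nlinarith only [t3, t4]

lemma exists_step {P : ℕ → Prop} (d : ℕ) (h0 : P 0) (h1 : ¬ P d) :
    ∃ j, j < d ∧ P j ∧ ¬ P (j + 1) := by
  induction d with
  | zero => exact absurd h0 h1
  | succ d ih =>
    by_cases h : P d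
    · exact ⟨d, Nat.lt_succ_self d, h, h1⟩
    · obtain ⟨j, hj, h2⟩ := ih h
      exact ⟨j, Nat.lt_succ_of_lt hj, h2⟩

lemma dil_dil (a b : ℝ) (p : Hs) : dil a (dil b p) = dil (b * a) p := by
  simp only [dil]
  refine Prod.ext ?_ (Prod.ext ?_ ?_) <;> simp only <;> ring

lemma dil_one (p : Hs) : dil 1 p = p := by simp [dil]

/-- The box on which the iteration takes place. -/
def Box : Type := {p : Hs // |p.1| ≤ 1 ∧ |p.2.1| ≤ 1}

section

variable {V : Type} [NormedAddCommGroup V] [NormedSpace ℝ V]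

/-- The maps and frames obtained by iterating the pattern. -/
noncomputable def st (f0 D : Hs → V) (R : Hs → V →L[ℝ] V) (lam s : ℝ) :
    ℕ → (Hs → V) × (Hs → V →L[ℝ] V)
  | 0 => (f0, fun _ => ContinuousLinearMap.id ℝ V)
  | k + 1 => (fun p => (st f0 D R lam s k).1 p + (st f0 D R lam s k).2 p (s ^ k • D (dil (lam ^ k) p)),
      fun p => ((st f0 D R lam s k).2 p).comp (R (dil (lam ^ k) p)))

variable {h lam s η γ κ A : ℝ} {e0 e1 e2 : V} {D : Hs → V} {R : Hs → V →L[ℝ] V}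

lemma LL_sq (he : ∀ a b c : ℝ, ‖a • e0 + b • e1 + c • e2‖ ^ 2 = a ^ 2 + b ^ 2 + c ^ 2)
    (p q : Hs) : ‖LL e0 e1 e2 h h 1 p q‖ ^ 2 =
      (h * (q.1 - p.1)) ^ 2 + (h * (q.2.1 - p.2.1)) ^ 2 + om p q ^ 2 := by
  rw [LL, he, one_mul]

lemma DD_le_one (he : ∀ a b c : ℝ, ‖a • e0 + b • e1 + c • e2‖ ^ 2 = a ^ 2 + b ^ 2 + c ^ 2)
    (hh : 1 ≤ h) {p q : Hs} (h1 : ‖LL e0 e1 e2 h h 1 p q‖ ≤ 1) : DD p q ≤ 1 := by
  have h2 := pow_le_one₀ (n := 2) (norm_nonneg _) h1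
  rw [LL_sq he, mul_pow, mul_pow] at h2
  have h3 : 1 ≤ h ^ 2 := one_le_pow₀ hh
  have a1 := sq_nonneg (q.1 - p.1)
  have a2 := sq_nonneg (q.2.1 - p.2.1)
  have a3 := sq_nonneg (om p q)
  refine max_le (max_le ?_ ?_) ?_
  · exact (sq_le_one_iff_abs_le_one _).1 (by nlinarith only [h2, h3])
  · exact (sq_le_one_iff_abs_le_one _).1 (by nlinarith only [h2, h3])
  · exact Real.sqrt_le_one.2 ((sq_le_one_iff_abs_le_one _).1 (by nlinarith only [h2]))

lemma LL_le_one (he : ∀ a b c : ℝ, ‖a • e0 + b • e1 + c • e2‖ ^ 2 = a ^ 2 + b ^ 2 + c ^ 2)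
    (hh : 1 ≤ h) {p q : Hs} (h1 : 2 * h * DD p q ≤ 1) : ‖LL e0 e1 e2 h h 1 p q‖ ≤ 1 := by
  have a1 : |q.1 - p.1| ≤ DD p q := (le_max_left _ _).trans (le_max_left _ _)
  have a2 : |q.2.1 - p.2.1| ≤ DD p q := (le_max_right _ _).trans (le_max_left _ _)
  have a3 : √|om p q| ≤ DD p q := le_max_right _ _
  have a0 := DD_nonneg p q
  have b1 : |h * (q.1 - p.1)| ≤ 1 / 2 := by
    rw [abs_mul, abs_of_nonneg (by linarith)]; nlinarith only [h1, a1, hh]
  have b2 : |h * (q.2.1 - p.2.1)| ≤ 1 / 2 := by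
    rw [abs_mul, abs_of_nonneg (by linarith)]; nlinarith only [h1, a2, hh]
  have b3 : |om p q| ≤ 1 / 2 := by
    have := Real.sqrt_le_iff.1 (a3.trans (show DD p q ≤ 1 / 2 by nlinarith only [h1, hh, a0]))
    linarith only [this, this.2]
  have c1 := pow_le_pow_left₀ (abs_nonneg _) b1 2
  have c2 := pow_le_pow_left₀ (abs_nonneg _) b2 2
  have c3 := pow_le_pow_left₀ (abs_nonneg _) b3 2
  rw [sq_abs] at c1 c2 c3
  refine (sq_le_one_iff₀ (norm_nonneg _)).1 ?_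
  rw [LL_sq he]
  linarith only [c1, c2, c3]

lemma LL_grow (he : ∀ a b c : ℝ, ‖a • e0 + b • e1 + c • e2‖ ^ 2 = a ^ 2 + b ^ 2 + c ^ 2)
    (hl : 1 < lam) (hs0 : 0 < s) (hs2 : 2 ≤ s * lam) (p q : Hs) :
    ‖LL e0 e1 e2 h h 1 p q‖ ≤ 1 / 2 * (s * ‖LL e0 e1 e2 h h 1 (dil lam p) (dil lam q)‖) := by
  refine le_of_sq_le_sq ?_ (by positivity)
  rw [mul_pow, mul_pow, LL_sq he, LL_sq he, om_dil]
  have e1 : (h * ((dil lam q).1 - (dil lam p).1)) ^ 2 = lam ^ 2 * (h * (q.1 - p.1)) ^ 2 := by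
    simp only [dil]; ring
  have e2 : (h * ((dil lam q).2.1 - (dil lam p).2.1)) ^ 2 =
      lam ^ 2 * (h * (q.2.1 - p.2.1)) ^ 2 := by
    simp only [dil]; ring
  rw [e1, e2, mul_pow (lam ^ 2)]
  have a1 := sq_nonneg (h * (q.1 - p.1))
  have a2 := sq_nonneg (h * (q.2.1 - p.2.1))
  have a3 := sq_nonneg (om p q)
  generalize (h * (q.1 - p.1)) ^ 2 = a at *
  generalize (h * (q.2.1 - p.2.1)) ^ 2 = b at *
  generalize om p q ^ 2 = c at *
  have b1 : 4 ≤ s ^ 2 * lam ^ 2 := by nlinarith only [hs2]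
  have b2 : 1 ≤ lam ^ 2 := one_le_pow₀ hl.le
  have b3 : 4 ≤ s ^ 2 * (lam ^ 2) ^ 2 := by nlinarith only [b2, b1]
  nlinarith only [b1, a1, a2, b3, a3, mul_le_mul_of_nonneg_right b1 a1, mul_le_mul_of_nonneg_right b1 a2,
    mul_le_mul_of_nonneg_right b3 a3]

lemma start_lin (he : ∀ a b c : ℝ, ‖a • e0 + b • e1 + c • e2‖ ^ 2 = a ^ 2 + b ^ 2 + c ^ 2)
    (hh : 1 ≤ h) (hh1 : 4 ≤ h * η) (p q : Box) :
    ‖((h * q.1.1) • e0 + (h * q.1.2.1) • e1 + q.1.2.2 • e2)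
      - ((h * p.1.1) • e0 + (h * p.1.2.1) • e1 + p.1.2.2 • e2) - LL e0 e1 e2 h h 1 p.1 q.1‖
      ≤ η * ‖LL e0 e1 e2 h h 1 p.1 q.1‖ := by
  obtain ⟨⟨x, y, t⟩, hx, hy⟩ := p
  obtain ⟨⟨x', y', t'⟩, -, -⟩ := q
  have hη : 0 < η := by
    by_contra hc
    nlinarith only [hh1, hc, hh]
  have e : ((h * x') • e0 + (h * y') • e1 + t' • e2) - ((h * x) • e0 + (h * y) • e1 + t • e2)
      - LL e0 e1 e2 h h 1 (x, y, t) (x', y', t')
      = (0 : ℝ) • e0 + (0 : ℝ) • e1 + (2 * (x * (y' - y) - y * (x' - x))) • e2 := by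
    simp only [LL, om]
    module
  refine le_of_sq_le_sq ?_ (by positivity)
  rw [mul_pow, LL_sq he]
  simp only at hx hy ⊢
  rw [e, he]
  have a1 : x ^ 2 ≤ 1 := (sq_le_one_iff_abs_le_one _).2 hx
  have a2 : y ^ 2 ≤ 1 := (sq_le_one_iff_abs_le_one _).2 hy
  have a3 : 16 ≤ (h * η) ^ 2 := by nlinarith only [hh1]
  generalize x' - x = a
  generalize y' - y = b
  have b1 : (x * b - y * a) ^ 2 ≤ 2 * (a ^ 2 + b ^ 2) := by
    nlinarith only [a1, a2, sq_nonneg (x * a + y * b), mul_le_mul_of_nonneg_right (add_le_add a1 a2)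
      (add_nonneg (sq_nonneg a) (sq_nonneg b))]
  have b2 := mul_le_mul_of_nonneg_right a3 (add_nonneg (sq_nonneg a) (sq_nonneg b))
  have b3 := mul_nonneg (sq_nonneg η) (sq_nonneg (om (x, y, t) (x', y', t')))
  nlinarith only [b1, b2, b3, sq_nonneg a, sq_nonneg b]

lemma state (he : ∀ a b c : ℝ, ‖a • e0 + b • e1 + c • e2‖ ^ 2 = a ^ 2 + b ^ 2 + c ^ 2)
    (hl : 1 < lam) (hs0 : 0 < s) (hs1 : s ≤ 1 / 2)
    (hs2 : 2 ≤ s * lam) (hh : 1 ≤ h) (hh1 : 4 ≤ h * η) (hη : η ≤ 1 / 10) (hA : ∀ p, ‖D p‖ ≤ A)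
    (hA1 : A ≤ 1 / 200) (hκ1 : κ * s ≤ 1) (hγ : 2 * η + 4 * A ≤ γ)
    (P : Pat (LL e0 e1 e2 h h 1) (fun p q => s • LL e0 e1 e2 h h 1 (dil lam p) (dil lam q))
      η γ κ s D R) (k : ℕ) :
    Pat (fun _ _ : Box => (0 : V))
      (fun p q => s ^ k • LL e0 e1 e2 h h 1 (dil (lam ^ k) p.1) (dil (lam ^ k) q.1))
      (2 * η + 2 * A) 0 (2 / s ^ k) (s ^ k)
      (fun p => (st (fun p => (h * p.1) • e0 + (h * p.2.1) • e1 + p.2.2 • e2) D R lam s k).1 p.1)
      (fun p => (st (fun p => (h * p.1) • e0 + (h * p.2.1) • e1 + p.2.2 • e2) D R lam s k).2 p.1) := by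
  have hη0 : 0 < η := by
    by_contra hc
    nlinarith only [hs1, hh1, hc, hs0, hh]
  have hA0 : 0 ≤ A := (norm_nonneg _).trans (hA 0)
  induction k with
  | zero =>
    simp only [pow_zero, one_smul, dil_one, st]
    refine ⟨fun _ _ => rfl, fun p q => by simp, fun p q _ => ?_, fun p q _ => ?_, fun p q hq => ?_⟩
    · rw [zero_add]
      refine (start_lin he hh hh1 p q).trans ?_
      exact mul_le_mul_of_nonneg_right (by linarith only [hη0, hA0]) (norm_nonneg _)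
    · rw [sub_self, norm_zero]; positivity
    · have a1 := start_lin he hh hh1 p q
      rw [norm_sub_rev] at a1
      have a2 := (norm_sub_norm_le _ _).trans a1
      rw [zero_add, zero_mul]
      nlinarith only [hs1, hη, hq, a2, hs0, hη0]
  | succ k ih =>
    have hsk : 0 < s ^ k := by positivity
    have hP := P.pull (fun p : Box => dil (lam ^ k) p.1) hsk
    have hc := ih.comp0 hP (A := s ^ k * A) (d := 1 / 2) (γ'' := 0)
      (fun p => by
        rw [norm_smul, Real.norm_of_nonneg hsk.le]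
        exact mul_le_mul_of_nonneg_left (hA _) hsk.le)
      (fun p q => by
        rw [norm_smul, norm_smul, norm_smul, Real.norm_of_nonneg hsk.le,
          Real.norm_of_nonneg hs0.le, mul_left_comm]
        exact mul_le_mul_of_nonneg_left (LL_grow he hl hs0 hs2 _ _) hsk.le)
      (by positivity) (by positivity) (by nlinarith only [hsk, hs1]) (by nlinarith only [hs0, hsk, hs1, hA1]) le_rfl le_rfl
      (by rw [← mul_assoc, div_mul_cancel₀ _ hsk.ne']; linarith only [hγ])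
    have e1 : (2 * η + 2 * A + 2 / s ^ k * (s ^ k * A)) * (1 / 2) + η = 2 * η + 2 * A := by
      rw [← mul_assoc, div_mul_cancel₀ _ hsk.ne']; ring
    rw [e1] at hc
    have hw := hc.weak (η' := 2 * η + 2 * A) (γ' := 0) (κ' := 2 / s ^ (k + 1)) (ρ' := s ^ (k + 1))
      le_rfl le_rfl
      (by
        rw [← add_div, div_le_div_iff₀ hsk (by positivity), pow_succ]
        nlinarith only [hs0, hs1, hsk, hκ1])
      (pow_succ s k).le (by linarith only [hη, hA1, hη0]) (by norm_num)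
    simp only [smul_smul, dil_dil, ← pow_succ] at hw
    exact hw

lemma exists_local {ε : ℝ}
    (he : ∀ a b c : ℝ, ‖a • e0 + b • e1 + c • e2‖ ^ 2 = a ^ 2 + b ^ 2 + c ^ 2)
    (hε : 0 < ε) (hε1 : ε < 1) (hl : 1 < lam) (hs0 : 0 < s)
    (hscale : ∀ (j : ℕ) (d : ℝ), 0 ≤ d → (lam ^ j * d) ^ ε * s ^ j = d ^ ε) (hs1 : s ≤ 1 / 2)
    (hs2 : 2 ≤ s * lam) (hh : 1 ≤ h) (hh1 : 4 ≤ h * η) (hη : η ≤ 1 / 10) (hA : ∀ p, ‖D p‖ ≤ A)
    (hA1 : A ≤ 1 / 200) (hκ1 : κ * s ≤ 1) (hγ : 2 * η + 4 * A ≤ γ)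
    (P : Pat (LL e0 e1 e2 h h 1) (fun p q => s • LL e0 e1 e2 h h 1 (dil lam p) (dil lam q))
      η γ κ s D R) :
    ∃ F : ℕ → Hs → V, ∀ (m : ℕ) (p q : Box), 2 * h * DD p.1 q.1 ≤ 1 → 1 < lam ^ m * DD p.1 q.1 →
      s / 50 * DD p.1 q.1 ^ ε ≤ ‖F m q.1 - F m p.1‖ ∧
        ‖F m q.1 - F m p.1‖ ≤ 6 * h / s * DD p.1 q.1 ^ ε := by
  have hS := state he hl hs0 hs1 hs2 hh hh1 hη hA hA1 hκ1 hγ P
  have hA0 : 0 ≤ A := (norm_nonneg _).trans (hA 0)
  have hl0 : 0 < lam := by linarith only [hε, hε1, hl]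
  set S := st (fun p => (h * p.1) • e0 + (h * p.2.1) • e1 + p.2.2 • e2) D R lam s with hSd
  have hstep : ∀ (k : ℕ) (p : Box), ‖(S (k + 1)).1 p.1 - (S k).1 p.1‖ ≤ s ^ k * A := by
    intro k p
    have e : (S (k + 1)).1 p.1 = (S k).1 p.1 + (S k).2 p.1 (s ^ k • D (dil (lam ^ k) p.1)) := rfl
    rw [e, add_sub_cancel_left, (hS k).iso p, norm_smul, Real.norm_of_nonneg (by positivity)]
    exact mul_le_mul_of_nonneg_left (hA _) (by positivity)
  have htail : ∀ (k d : ℕ) (p : Box),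
      ‖(S (k + d)).1 p.1 - (S k).1 p.1‖ ≤ 2 * A * (s ^ k - s ^ (k + d)) := by
    intro k d p
    induction d with
    | zero => simp
    | succ d ih =>
      have a1 := hstep (k + d) p
      have a2 := norm_sub_le_norm_sub_add_norm_sub ((S (k + d + 1)).1 p.1) ((S (k + d)).1 p.1)
        ((S k).1 p.1)
      have a3 : 0 ≤ s ^ (k + d) * A := by positivity
      rw [← add_assoc, pow_succ]
      nlinarith only [ih, a1, a2, hε, hε1, hs1, a3]
  have htail' : ∀ (k m : ℕ) (p : Box), k ≤ m → ‖(S m).1 p.1 - (S k).1 p.1‖ ≤ s ^ k / 100 := by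
    intro k m p hkm
    obtain ⟨d, rfl⟩ := Nat.exists_eq_add_of_le hkm
    have a1 := htail k d p
    have a2 : 0 ≤ A * s ^ (k + d) := by positivity
    have a3 : 0 < s ^ k := by positivity
    nlinarith only [a1, a2, hε, hε1, hA1, a3]
  have hdiff : ∀ (k m : ℕ) (p q : Box), k ≤ m →
      ‖((S m).1 q.1 - (S m).1 p.1) - ((S k).1 q.1 - (S k).1 p.1)‖ ≤ s ^ k / 50 := by
    intro k m p q hkm
    rw [sub_sub_sub_comm]
    refine (norm_sub_le _ _).trans ?_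
    linarith only [hkm, htail' k m p hkm, htail' k m q hkm]
  refine ⟨fun m => (S m).1, fun m p q h1 h2 => ?_⟩
  have hD := DD_nonneg p.1 q.1
  obtain ⟨j, hj, h3, h4⟩ := exists_step
    (P := fun i => ‖LL e0 e1 e2 h h 1 (dil (lam ^ i) p.1) (dil (lam ^ i) q.1)‖ ≤ 1) m
    (by simpa only [pow_zero, dil_one] using LL_le_one he hh h1)
    (fun hc => by
      have := DD_le_one he hh hc
      rw [DD_dil (by positivity)] at this
      linarith)
  have h5 := DD_le_one he hh h3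
  have h6 : 1 < 2 * h * (lam ^ (j + 1) * DD p.1 q.1) := by
    rw [← DD_dil (by positivity)]
    exact not_le.1 fun hc => h4 (LL_le_one he hh hc)
  rw [DD_dil (by positivity)] at h5
  have hsj : 0 < s ^ j := by positivity
  have hsj1 : 0 < s ^ (j + 1) := by positivity
  have g1 : DD p.1 q.1 ^ ε ≤ s ^ j := by
    rw [← hscale j _ hD]
    exact mul_le_of_le_one_left (by positivity) (Real.rpow_le_one (by positivity) h5 hε.le)
  have g2 : s ^ (j + 1) ≤ 2 * h * DD p.1 q.1 ^ ε := by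
    rw [← hscale (j + 1) _ hD, ← mul_assoc]
    refine le_mul_of_one_le_left (by positivity) ?_
    have a1 := Real.one_le_rpow h6.le hε.le
    rw [Real.mul_rpow (by positivity) (by positivity)] at a1
    refine a1.trans (mul_le_mul_of_nonneg_right ?_ (by positivity))
    exact Real.rpow_le_self_of_one_le (by linarith only [hε, hε1, hh]) hε1.le
  have b1 : ‖s ^ j • LL e0 e1 e2 h h 1 (dil (lam ^ j) p.1) (dil (lam ^ j) q.1)‖ ≤ s ^ j := by
    rw [norm_smul, Real.norm_of_nonneg hsj.le]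
    exact mul_le_of_le_one_right hsj.le h3
  have b2 : s ^ (j + 1) ≤
      ‖s ^ (j + 1) • LL e0 e1 e2 h h 1 (dil (lam ^ (j + 1)) p.1) (dil (lam ^ (j + 1)) q.1)‖ := by
    rw [norm_smul, Real.norm_of_nonneg hsj1.le]
    exact le_mul_of_one_le_right hsj1.le (not_le.1 h4).le
  have c1 := (hS j).lin p q b1
  have c2 := (hS (j + 1)).sep p q b2
  rw [zero_add] at c1 c2
  rw [zero_mul, add_zero] at c2
  have c3 := (norm_sub_norm_le _ _).trans c1
  rw [(hS j).iso p] at c3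
  have d1 := (norm_sub_norm_le _ _).trans (hdiff j m p q hj.le)
  have d2 := hdiff (j + 1) m p q hj
  rw [norm_sub_rev] at d2
  have d3 := (norm_sub_norm_le _ _).trans d2
  constructor
  · have : s / 50 * DD p.1 q.1 ^ ε ≤ s ^ (j + 1) / 50 := by
      rw [pow_succ]; nlinarith only [hε, hε1, hs0, g1]
    linarith only [hsj1, c2, d3, this]
  · have a1 : ‖(S m).1 q.1 - (S m).1 p.1‖ ≤ 3 * s ^ j := by
      have := norm_nonneg (s ^ j • LL e0 e1 e2 h h 1 (dil (lam ^ j) p.1) (dil (lam ^ j) q.1))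
      nlinarith only [b1, c3, d1, hε, hsj, hε1, hη, this, hA1]
    calc _ ≤ 3 * s ^ j := a1
      _ = 3 / s * s ^ (j + 1) := by rw [pow_succ]; field_simp
      _ ≤ 3 / s * (2 * h * DD p.1 q.1 ^ ε) := by gcongr
      _ = _ := by ring

lemma exists_global [ProperSpace V] {ε a b c : ℝ} {F : ℕ → Hs → V} (hε : 0 < ε) (hl : 1 < lam)
    (hs : 0 < s) (hscale : ∀ (j : ℕ) (d : ℝ), 0 ≤ d → (lam ^ j * d) ^ ε * s ^ j = d ^ ε)
    (hF : ∀ (m : ℕ) (p q : Box), c * DD p.1 q.1 ≤ 1 → 1 < lam ^ m * DD p.1 q.1 →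
      a * DD p.1 q.1 ^ ε ≤ ‖F m q.1 - F m p.1‖ ∧ ‖F m q.1 - F m p.1‖ ≤ b * DD p.1 q.1 ^ ε) :
    ∃ f : Hs → V, ∀ p q : Hs, a * DD p q ^ ε ≤ ‖f q - f p‖ ∧ ‖f q - f p‖ ≤ b * DD p q ^ ε := by
  have hl0 : 0 < lam := by linarith
  let G : ℕ → Hs → V := fun N p =>
    (s ^ N)⁻¹ • (F (2 * N) (dil (lam ^ N)⁻¹ p) - F (2 * N) (dil (lam ^ N)⁻¹ 0))
  have ht := tendsto_pow_atTop_atTop_of_one_lt hl
  have hbox : ∀ p : Hs, ∀ᶠ N in atTop,
      |(dil (lam ^ N)⁻¹ p).1| ≤ 1 ∧ |(dil (lam ^ N)⁻¹ p).2.1| ≤ 1 := by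
    intro p
    filter_upwards [ht.eventually_ge_atTop |p.1|, ht.eventually_ge_atTop |p.2.1|] with N h1 h2
    have hN : 0 < lam ^ N := by positivity
    simp only [dil, abs_mul, abs_of_pos (inv_pos.2 hN)]
    rw [inv_mul_le_iff₀ hN, inv_mul_le_iff₀ hN, mul_one]
    exact ⟨h1, h2⟩
  have hG : ∀ p q : Hs, ∀ᶠ N in atTop,
      a * DD p q ^ ε ≤ ‖G N q - G N p‖ ∧ ‖G N q - G N p‖ ≤ b * DD p q ^ ε := by
    intro p q
    by_cases hpq : p = q
    · subst hpq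
      have : DD p p = 0 := by simp [DD, om, mul_comm]
      simp [this, Real.zero_rpow hε.ne']
    have hD := DD_pos hpq
    filter_upwards [ht.eventually_ge_atTop (c * DD p q), ht.eventually_gt_atTop (DD p q)⁻¹,
      hbox p, hbox q] with N h1 h2 hp hq
    have hN : 0 < lam ^ N := by positivity
    have hsN : 0 < s ^ N := by positivity
    have h3 := hF (2 * N) ⟨dil (lam ^ N)⁻¹ p, hp⟩ ⟨dil (lam ^ N)⁻¹ q, hq⟩
      (by
        simp only
        rw [DD_dil (by positivity), mul_left_comm, inv_mul_le_iff₀ hN, mul_one]; exact h1)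
      (by
        simp only
        rw [DD_dil (by positivity), two_mul, pow_add, mul_assoc, mul_inv_cancel_left₀ hN.ne']
        rw [inv_lt_iff_one_lt_mul₀ hD] at h2
        exact h2)
    simp only at h3
    rw [DD_dil (by positivity), ← hscale N _ (by positivity), mul_inv_cancel_left₀ hN.ne'] at h3
    have e : ‖G N q - G N p‖ =
        (s ^ N)⁻¹ * ‖F (2 * N) (dil (lam ^ N)⁻¹ q) - F (2 * N) (dil (lam ^ N)⁻¹ p)‖ := by
      simp only [G]
      rw [← smul_sub, sub_sub_sub_cancel_right, norm_smul, Real.norm_eq_abs,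
        abs_of_pos (inv_pos.2 hsN)]
    rw [e, le_inv_mul_iff₀ hsN, inv_mul_le_iff₀ hsN]
    constructor
    · linarith only [h3, h3.1]
    · linarith only [h3, h3.2]
  let U : Ultrafilter ℕ := Filter.hyperfilter ℕ
  have hU : (U : Filter ℕ) ≤ atTop := Nat.hyperfilter_le_atTop
  have hlim : ∀ p : Hs, ∃ x : V, Tendsto (fun N => G N p) U (𝓝 x) := by
    intro p
    have hmem : (U.map fun N => G N p : Filter V) ≤ 𝓟 (Metric.closedBall 0 (b * DD 0 p ^ ε)) := by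
      rw [le_principal_iff]
      refine mem_map.2 (hU ?_)
      filter_upwards [hG 0 p] with N hN
      have : G N 0 = 0 := by simp [G]
      rw [this, sub_zero] at hN
      simpa using hN.2
    obtain ⟨x, -, hx⟩ := (isCompact_closedBall (0 : V) (b * DD 0 p ^ ε)).ultrafilter_le_nhds
      (U.map fun N => G N p) hmem
    exact ⟨x, hx⟩
  choose f hf using hlim
  refine ⟨f, fun p q => ?_⟩
  have ht : Tendsto (fun N => ‖G N q - G N p‖) U (𝓝 ‖f q - f p‖) := ((hf q).sub (hf p)).norm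
  exact ⟨ge_of_tendsto ht ((hG p q).filter_mono hU |>.mono fun N h => h.1),
    le_of_tendsto ht ((hG p q).filter_mono hU |>.mono fun N h => h.2)⟩

end

end SF

theorem embed_of_cycle {n : ℕ} {ε h lam s η γ κ A : ℝ} {e0 e1 e2 : EuclideanSpace ℝ (Fin n)}
    {D : Hs → EuclideanSpace ℝ (Fin n)}
    {R : Hs → EuclideanSpace ℝ (Fin n) →L[ℝ] EuclideanSpace ℝ (Fin n)}
    (he : ∀ a b c : ℝ, ‖a • e0 + b • e1 + c • e2‖ ^ 2 = a ^ 2 + b ^ 2 + c ^ 2)
    (hε : 0 < ε) (hε1 : ε < 1) (hl : 1 < lam) (hs : lam ^ ε * s = 1) (hs1 : s ≤ 1 / 2)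
    (hs2 : 2 ≤ s * lam) (hh : 1 ≤ h) (hh1 : 4 ≤ h * η) (hη : η ≤ 1 / 10) (hA : ∀ p, ‖D p‖ ≤ A)
    (hA1 : A ≤ 1 / 200) (hκ : 0 ≤ κ) (hκ1 : κ * s ≤ 1) (hγ : 2 * η + 4 * A ≤ γ)
    (P : Pat (LL e0 e1 e2 h h 1) (fun p q => s • LL e0 e1 e2 h h 1 (dil lam p) (dil lam q))
      η γ κ s D R) :
    ∃ f : ℝ × ℝ × ℝ → EuclideanSpace ℝ (Fin n), ∃ C : ℝ, 0 < C ∧
      ∀ p q : ℝ × ℝ × ℝ,
        C⁻¹ * (((q.1 - p.1) ^ 2 + (q.2.1 - p.2.1) ^ 2) ^ 2
              + (q.2.2 - p.2.2 - 2 * (p.1 * q.2.1 - p.2.1 * q.1)) ^ 2) ^ (ε / 4)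
            ≤ dist (f p) (f q) ∧
        dist (f p) (f q) ≤
          C * (((q.1 - p.1) ^ 2 + (q.2.1 - p.2.1) ^ 2) ^ 2
              + (q.2.2 - p.2.2 - 2 * (p.1 * q.2.1 - p.2.1 * q.1)) ^ 2) ^ (ε / 4) := by
  have hl0 : 0 < lam := by linarith only [hε, hε1, hl]
  have hs0 : 0 < s := by
    have := Real.rpow_pos_of_pos hl0 ε
    by_contra hc
    nlinarith only [hs2, hc, hε, hε1, hl]
  have hscale : ∀ (j : ℕ) (d : ℝ), 0 ≤ d → (lam ^ j * d) ^ ε * s ^ j = d ^ ε := by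
    intro j d hd
    rw [Real.mul_rpow (by positivity) hd, ← Real.rpow_natCast, ← Real.rpow_mul hl0.le,
      mul_comm _ ε, Real.rpow_mul hl0.le, Real.rpow_natCast, mul_right_comm, ← mul_pow, hs,
      one_pow, one_mul]
  obtain ⟨F, hF⟩ := SF.exists_local he hε hε1 hl hs0 hscale hs1 hs2 hh hh1 hη hA hA1 hκ1 hγ P
  obtain ⟨f, hf⟩ := SF.exists_global hε hl hs0 hscale hF
  have ha : 0 < s / 50 := by positivity
  have hb : 0 < 6 * h / s := by positivity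
  generalize s / 50 = a at ha hf
  generalize 6 * h / s = b at hb hf
  refine ⟨f, 5 / a + b, by positivity, fun p q => ?_⟩
  change _ * (_ + om p q ^ 2) ^ _ ≤ _ ∧ _ ≤ _ * (_ + om p q ^ 2) ^ _
  obtain ⟨c1, c2⟩ := SF.DD_compare p q
  obtain ⟨f1, f2⟩ := hf p q
  rw [dist_comm, dist_eq_norm]
  have hD := SF.DD_nonneg p q
  generalize ((q.1 - p.1) ^ 2 + (q.2.1 - p.2.1) ^ 2) ^ 2 + om p q ^ 2 = ρ at c1 c2 ⊢
  have hρ : 0 ≤ ρ := le_trans (by positivity) c1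
  have e : (SF.DD p q ^ 4) ^ (ε / 4) = SF.DD p q ^ ε := by
    rw [← Real.rpow_natCast, ← Real.rpow_mul hD]
    congr 1
    push_cast
    ring
  have g1 : SF.DD p q ^ ε ≤ ρ ^ (ε / 4) := by
    rw [← e]; exact Real.rpow_le_rpow (by positivity) c1 (by positivity)
  have g2 : ρ ^ (ε / 4) ≤ 5 * SF.DD p q ^ ε := by
    refine (Real.rpow_le_rpow hρ c2 (by positivity)).trans ?_
    rw [Real.mul_rpow (by norm_num) (by positivity), e]
    apply mul_le_mul_of_nonneg_right _ (by positivity)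
    exact Real.rpow_le_self_of_one_le (by norm_num) (by linarith only [hε, hε1])
  have hρ' : 0 ≤ ρ ^ (ε / 4) := by positivity
  constructor
  · have h1 : (5 / a + b)⁻¹ ≤ (5 / a)⁻¹ :=
      inv_anti₀ (by positivity) (le_add_of_nonneg_right (by positivity))
    calc _ ≤ (5 / a)⁻¹ * (5 * SF.DD p q ^ ε) := by gcongr
      _ = a * SF.DD p q ^ ε := by field_simp
      _ ≤ _ := f1
  · have h1 : 0 ≤ 5 / a * ρ ^ (ε / 4) := by positivity
    have h2 := mul_le_mul_of_nonneg_left g1 hb.le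
    nlinarith only [f2, h1, h2]

end Pool.Agent.Work.MP_689d9c_gt
end

-- merged part: Pool.Agent.Work.MP_689d9c_gt.S.Main
section
/-! The embedding above the threshold. -/

set_option autoImplicit false

namespace Pool.Agent.Work.MP_689d9c_gt

open Real Filter
open scoped RealInnerProductSpace

theorem sufficiency (n : ℕ) (ε : ℝ) (h0 : 0 < ε) (h1 : ε < 1) (hn : 4 < n * ε) :
    ∃ f : ℝ × ℝ × ℝ → EuclideanSpace ℝ (Fin n), ∃ C : ℝ, 0 < C ∧
      ∀ p q : ℝ × ℝ × ℝ,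
        C⁻¹ * (((q.1 - p.1) ^ 2 + (q.2.1 - p.2.1) ^ 2) ^ 2
              + (q.2.2 - p.2.2 - 2 * (p.1 * q.2.1 - p.2.1 * q.1)) ^ 2) ^ (ε / 4)
            ≤ dist (f p) (f q) ∧
        dist (f p) (f q) ≤
          C * (((q.1 - p.1) ^ 2 + (q.2.1 - p.2.1) ^ 2) ^ 2
              + (q.2.2 - p.2.2 - 2 * (p.1 * q.2.1 - p.2.1 * q.1)) ^ 2) ^ (ε / 4) := by
  have hn4 : 4 < n := by
    have : (4 : ℝ) < n := by nlinarith only [hn, h1, (Nat.cast_nonneg n : (0 : ℝ) ≤ n)]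
    exact_mod_cast this
  obtain ⟨c, rfl⟩ : ∃ c, n = c + 3 := ⟨n - 3, by omega⟩
  have hc : 0 < c := by omega
  have hc1 : (1 : ℝ) ≤ c := by exact_mod_cast hc
  push_cast at hn
  obtain ⟨b, hb1, hb2⟩ : ∃ b : ℕ → EuclideanSpace ℝ (Fin (c + 3)), (∀ i < c + 3, ‖b i‖ = 1) ∧
      ∀ i < c + 3, ∀ j < c + 3, i ≠ j → ⟪b i, b j⟫ = 0 := by
    refine ⟨fun i => if h : i < c + 3 then EuclideanSpace.single ⟨i, h⟩ 1 else 0, fun i hi => ?_,
      fun i hi j hj hij => ?_⟩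
    · simp [hi]
    · simp [hi, hj, EuclideanSpace.inner_single_left, hij]
  obtain ⟨η, hη, hη1⟩ : ∃ η : ℝ, 0 < η ∧ (30 * c + 18) * η ≤ 1 / 8000 :=
    ⟨1 / 8000 / (30 * c + 18), by positivity, by rw [mul_div_cancel₀ _ (by positivity)]⟩
  obtain ⟨k, hk⟩ : ∃ k, k = (η ^ 2 / 260) ^ c * η / c := ⟨_, rfl⟩
  have k0 : 0 < k := by rw [hk]; positivity
  have ev : ∀ {δ : ℝ}, 0 < δ → ∀ B, ∀ᶠ u in atTop, B ≤ exp (δ * u) := fun hδ B =>
    (tendsto_exp_atTop.comp (tendsto_id.const_mul_atTop hδ)).eventually_ge_atTop B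
  obtain ⟨u, u1, u2, u3, u4, u5, u6⟩ := ((ev (δ := 1 - ε) (by linarith only [h1]) (1 / η)).and
    ((ev (δ := 2 - ε) (by linarith only [h0, h1]) (1 / η)).and ((ev (δ := (1 - ε) * c) (by nlinarith only [h0, h1, hc1]) 2).and
    ((ev (δ := ε * c) (by positivity) 2).and ((ev (δ := c) (by positivity) 2).and
    (ev (δ := (c + 3) * ε - 4) (by linarith) (3 / k ^ 3))))))).exists
  rw [div_le_iff₀ hη] at u1 u2
  obtain ⟨h, ⟨D, R, p1, p2⟩, hh, hh1⟩ := ((exists_cycle hc hb1 hb2 hη hη1 u1 u2 hk).and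
    ((eventually_ge_atTop 1).and (eventually_ge_atTop (4 / ((15 * c + 3) * η))))).exists
  have e1 : exp (-(ε * c * u)) * exp (c * u) = exp ((1 - ε) * c * u) := by
    rw [← exp_add]
    ring_nf
  have e2 : LL (b 0) (b 1) (b 2) (exp ((1 - ε) * u) ^ c * h) (exp ((1 - ε) * u) ^ c * h)
      (exp ((2 - ε) * u) ^ c) = fun p q => exp (-(ε * c * u)) •
        LL (b 0) (b 1) (b 2) h h 1 (dil (exp (c * u)) p) (dil (exp (c * u)) q) := by
    funext p q
    have t1 : exp ((1 - ε) * u) ^ c = exp (-(ε * c * u)) * exp (c * u) := by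
      rw [← exp_add, ← exp_nat_mul]
      ring_nf
    have t2 : exp ((2 - ε) * u) ^ c = exp (-(ε * c * u)) * exp (c * u) ^ 2 := by
      rw [← exp_nat_mul, ← exp_nat_mul, ← exp_add]
      push_cast
      ring_nf
    rw [LL, LL, om_dil, t1, t2]
    simp only [dil]
    module
  have e3 : 3 * exp (-(ε * c * u)) ≤ k ^ 3 / (exp ((1 - ε) * u) ^ 2 * exp ((2 - ε) * u)) := by
    have t1 : exp (-(ε * c * u)) * (exp ((1 - ε) * u) ^ 2 * exp ((2 - ε) * u)) *
        exp (((c + 3) * ε - 4) * u) = 1 := by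
      rw [← exp_nat_mul, ← exp_add, ← exp_add, ← exp_add, exp_eq_one_iff]
      push_cast
      ring
    rw [div_le_iff₀ (by positivity)] at u6
    rw [le_div_iff₀ (by positivity), mul_assoc]
    have t2 := mul_le_mul_of_nonneg_left u6
      (by positivity : 0 ≤ exp (-(ε * c * u)) * (exp ((1 - ε) * u) ^ 2 * exp ((2 - ε) * u)))
    rw [← mul_assoc _ _ (k ^ 3), t1] at t2
    linarith only [t2]
  rw [e2] at p1
  have s0 := exp_pos (-(ε * c * u))
  refine embed_of_cycle (fun x y z => ?_) h0 h1 (by linarith only [h0, h1, u5]) ?_ ?_ (by rwa [e1]) hh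
    ((div_le_iff₀ (by positivity)).1 hh1) (by nlinarith only [h0, h1, hη, hη1]) p2 (by nlinarith only [hη, hη1]) (by positivity) ?_
    (by linarith only [hη1]) (p1.weak le_rfl le_rfl le_rfl (by linarith only [e3, s0]) (by nlinarith only [h0, h1, hη, hη1]) (by norm_num))
  · rw [norm_sq_three (hb1 1 (by omega)) (hb1 2 (by omega)) (hb2 1 (by omega) 2 (by omega) (by omega)),
      inner_smul_right, inner_smul_right, hb2 1 (by omega) 0 (by omega) (by omega),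
      hb2 2 (by omega) 0 (by omega) (by omega), norm_smul, hb1 0 (by omega), mul_one, Real.norm_eq_abs,
      sq_abs]
    ring
  · rw [← exp_mul, ← exp_add, exp_eq_one_iff]
    ring
  · rw [exp_neg, one_div]
    exact inv_anti₀ two_pos u4
  · rw [div_mul_eq_mul_div, div_le_one (by positivity)]
    exact e3

end Pool.Agent.Work.MP_689d9c_gt
end
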